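import Pool.Agent.MP_ee8c61_ag.N3E.Spec

/-!
Row A4: an ample divisor upstairs as a small perturbation of a pull-back.
-/

namespace Pool.Agent.MP_ee8c61_ag.N3.M3E

open Pool.Agent.MP_ee8c61_ag.M3

set_option linter.unusedSectionVars false

variable [Base]

open H59 M3

theorem rowA4 : OfA4 := by
  intro hB hA hD N f W M D hW hM A hAm
  have bW := hB N f W hW
  have aW := hA N f W hW
  have aM := hA N f M hM
  have dc := hD N f W M D hW hM
  obtain ⟨h, hh⟩ := hW.amp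
  obtain ⟨T, hT, hg⟩ := bW.amp_free h hh
  obtain ⟨ε0, h0, h1⟩ := aM.opn A (-M.q (D.pf h)) hAm
  refine ⟨D.pb (D.pf h) - h, fun i => ?_, funext fun j => ?_, ε0, h0, fun ε hε hε' => ?_⟩
  · obtain ⟨g, hgT, hgen⟩ := hg _ (bW.ov_v i)
    have h2 : g ∈ W.H (D.pb (D.pf h)) := by rw [dc.H]; exact dc.push h (hT g hgT)
    have h3 := (bW.oc_v i _ g).1 (h2 _ (bW.ov_v i))
    obtain ⟨h4, h5⟩ := (bW.gen_v i h g).1 hgen
    have h6 := h3.resolve_left h4
    change 0 ≤ D.pb (D.pf h) i - h i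
    omega
  · change D.pb (D.pf h) (D.e j) - h (D.e j) = 0
    rw [dc.pb_e]; exact sub_self _
  · have h2 := aW.add _ _ (aW.smul _ ε hε (aW.of_amp h hh))
      (dc.semi _ (aM.semi _ (h1 ε hε.le hε')))
    have e : D.pb A - ε • W.q (D.pb (D.pf h) - h) =
        ε • W.q h + D.pb (A + ε • -M.q (D.pf h)) := by
      rw [W.q_sub, D.q_pb, D.pb_add, D.pb_smul, D.pb_neg, smul_sub, smul_neg]
      abel
    rw [e]; exact h2

end Pool.Agent.MP_ee8c61_ag.N3.M3E
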