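import Pool.Agent.MP_ee8c61_ag.N3E.Spec

/-!
Row Aq: ample and semiample rational divisors.
-/

namespace Pool.Agent.MP_ee8c61_ag.N3.M3E

open Pool.Agent.MP_ee8c61_ag.M3

set_option linter.unusedSectionVars false

variable [Base]

open H59 M3 Finset

namespace RAq

variable {N : ℕ} {M : Mod N}

theorem q_nsmul (r : ℕ) (w : M.J → ℤ) : M.q (r • w) = (r : ℚ) • M.q w := by
  funext j; simp [Mod.q]

theorem q_add (w c : M.J → ℤ) : M.q (w + c) = M.q w + M.q c := by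
  funext j; simp [Mod.q]

theorem cast_smul (r : ℕ) (A : M.J → ℚ) : r • A = (r : ℚ) • A := (Nat.cast_smul_eq_nsmul ℚ r A).symm

theorem frac (t : ℚ) (ht : 0 ≤ t) : ∃ a d : ℕ, 0 < d ∧ (a : ℚ) = d * t := by
  refine ⟨t.num.toNat, t.den, t.den_pos, ?_⟩
  have h1 : ((t.num.toNat : ℤ) : ℚ) = t.num := by
    rw [Int.toNat_of_nonneg (Rat.num_nonneg.2 ht)]
  rw [Rat.den_mul_eq_num, ← h1, Int.cast_natCast]

theorem den (u : M.J → ℚ) : ∃ (d : ℕ) (u' : M.J → ℤ), 0 < d ∧ M.q u' = (d : ℚ) • u := by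
  have h : ∀ j, ∃ z : ℤ, (z : ℚ) = ((∏ i, (u i).den : ℕ) : ℚ) * u j := fun j => by
    obtain ⟨m, hm⟩ : (u j).den ∣ ∏ i, (u i).den := dvd_prod_of_mem _ (mem_univ j)
    refine ⟨m * (u j).num, ?_⟩
    rw [hm, Nat.cast_mul, mul_right_comm, Rat.den_mul_eq_num]
    push_cast
    ring
  choose u' hu using h
  exact ⟨_, u', prod_pos fun i _ => (u i).den_pos, funext hu⟩

theorem scale {A : M.J → ℚ} {w : M.J → ℤ} {μ a d : ℕ} {t : ℚ} (h : M.q w = μ • A)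
    (ha : (a : ℚ) = d * t) : M.q (a • w) = (μ * d) • t • A := by
  rw [q_nsmul, h, cast_smul, cast_smul, smul_smul, smul_smul, ha]
  congr 1
  push_cast
  ring

theorem sum {A P : M.J → ℚ} {w c : M.J → ℤ} {μ ν : ℕ} (h : M.q w = μ • A) (h' : M.q c = ν • P) :
    M.q (ν • w + μ • c) = (μ * ν) • (A + P) := by
  rw [q_add, q_nsmul, q_nsmul, h, h', ← cast_smul, ← cast_smul, smul_smul, smul_smul, smul_add,
    mul_comm ν μ]

end RAq

open RAq in
theorem rowAq : OfAq := by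
  intro hB h1 h3 N f M ok
  have B := hB N f M ok
  have nsmul : ∀ w (r : ℕ), 0 < r → M.Amp w → M.Amp (r • w) := by
    rintro w r hr ⟨κ, hκ, b, t, ρ, h⟩
    refine ⟨κ, hκ, b, t, fun i => ρ i ^ r, h.mem, h.ne,
      fun i V hV => B.oc_pow V w _ r (h.sec i V hV), fun V hV => ?_, fun i V hV => ?_⟩
    · obtain ⟨i, hi⟩ := h.cov V hV
      exact ⟨i, B.gen_pow V w _ r hi⟩
    · exact Iff.trans ⟨B.gen_root V w _ r hr, B.gen_pow V w _ r⟩ (h.gen i V hV)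
  have of_amp : ∀ w, M.Amp w → M.AmpQ (M.q w) := fun w h =>
    ⟨1, w, one_pos, h, (one_smul _ _).symm⟩
  have semi : ∀ A, M.AmpQ A → M.SemiQ A := fun A ⟨μ, w, h, h', e⟩ =>
    ⟨μ, w, h, B.amp_free w h', e⟩
  have smul : ∀ A (t : ℚ), 0 < t → M.AmpQ A → M.AmpQ (t • A) := by
    rintro A t ht ⟨μ, w, h, h', e⟩
    obtain ⟨a, d, hd, ha⟩ := frac t ht.le
    have ha0 : 0 < a := by
      have : (0 : ℚ) < a := ha ▸ mul_pos (by exact_mod_cast hd) ht
      exact_mod_cast this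
    exact ⟨μ * d, a • w, mul_pos h hd, nsmul w a ha0 h', scale e ha⟩
  have smul' : ∀ A (t : ℚ), 0 ≤ t → M.SemiQ A → M.SemiQ (t • A) := by
    rintro A t ht ⟨μ, w, h, h', e⟩
    obtain ⟨a, d, hd, ha⟩ := frac t ht
    exact ⟨μ * d, a • w, mul_pos h hd, B.free_nsmul w a h', scale e ha⟩
  have add : ∀ A P, M.AmpQ A → M.SemiQ P → M.AmpQ (A + P) := by
    rintro A P ⟨μ, w, h, h', e⟩ ⟨ν, c, g, g', e'⟩
    exact ⟨μ * ν, ν • w + μ • c, mul_pos h g,
      h3 N f M ok _ _ (nsmul w ν g h') (B.free_nsmul c μ g'), sum e e'⟩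
  refine ⟨nsmul, of_amp, fun w h => ⟨1, w, one_pos, h, (one_smul _ _).symm⟩, semi, smul, smul',
    add, ?_, ?_, ?_⟩
  · rintro A P ⟨μ, w, h, h', e⟩ ⟨ν, c, g, g', e'⟩
    exact ⟨μ * ν, ν • w + μ • c, mul_pos h g,
      B.free_add _ _ (B.free_nsmul w ν h') (B.free_nsmul c μ g'), sum e e'⟩
  · rintro A u ⟨μ, w, h, h', e⟩
    obtain ⟨d, u', hd, hu⟩ := den u
    obtain ⟨r, hr⟩ := h1 N f M ok w u' h'
    have hμ : (0 : ℚ) < μ := by exact_mod_cast h
    have hd' : (0 : ℚ) < d := by exact_mod_cast hd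
    have hr' : (0 : ℚ) ≤ r := Nat.cast_nonneg r
    refine ⟨d / (μ * (r + 1)), by positivity, fun ε h0 hε => ?_⟩
    have e1 : A + ε • u = (1 / μ - ε * r / d) • M.q w + (ε / d) • M.q (r • w + u') := by
      rw [q_add, q_nsmul, hu, e, cast_smul]
      funext j
      simp only [Pi.add_apply, Pi.smul_apply, smul_eq_mul]
      field_simp
      ring
    rw [e1]
    refine add _ _ (smul _ _ ?_ (of_amp w h'))
      (smul' _ _ (by positivity) (semi _ (of_amp _ (hr r le_rfl))))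
    rw [le_div_iff₀ (by positivity)] at hε
    rw [sub_pos, div_lt_div_iff₀ hd' hμ]
    rcases h0.eq_or_lt with h2 | h2
    · rw [← h2]; simpa using hd'
    · nlinarith [mul_pos h2 hμ]
  · rintro P ⟨μ, w, h, h', e⟩
    refine ⟨μ, h, fun r => ⟨r • w, B.free_nsmul w r h', ?_⟩⟩
    rw [q_nsmul, e, ← cast_smul, smul_smul, mul_comm]

end Pool.Agent.MP_ee8c61_ag.N3.M3E
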