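import Pool.Agent.MP_ee8c61_ag.N3E.Spec

/-! Principalisation of finitely many linear systems on a dominating model. -/

namespace Pool.Agent.MP_ee8c61_ag.N3.M3E

open Pool.Agent.MP_ee8c61_ag.M3

set_option linter.unusedSectionVars false

variable [Base]

open H59 M3 Finset

namespace RB1

variable {N : ℕ} {f : Po N}

theorem ip_inj : Function.Injective (ip N) := IsFractionRing.injective (Po N) (KK N)

theorem f_ne {M : Mod N} (h : M.OK f) : ip N f ≠ 0 := by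
  obtain ⟨b, -⟩ := h.cov ⊤ fun _ => ValuationSubring.mem_top _
  obtain ⟨U, -, e⟩ := h.ord b
  rw [e]
  exact mul_ne_zero U.ne_zero (M.mon_ne _ _)

theorem poly (h0 : SB1raw) (hB : SBas) (hN : SNb) (hH : SH) (hM : SMono) (hf : Gd f) (κ : Type)
    [Fintype κ] (P : κ → Finset (Po N)) (hP : ∀ i, ∃ r : ℕ, f ^ r ∈ P i) :
    ∃ W : Mod N, W.OK f ∧ ∀ i, ∃ c, (∀ p ∈ P i, ip N p ∈ W.H c) ∧
      ∀ V, Ov V → ∃ p ∈ P i, W.Gen V c (ip N p) := by
  classical
  choose r hr using hP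
  obtain ⟨W, hW, c, T, hT, h1, h2⟩ := h0 N f ((Fintype.piFinset P).image fun x => ∏ i, x i) hf
    ⟨∑ i, r i, mem_image.2 ⟨fun i => f ^ r i, Fintype.mem_piFinset.2 hr,
      prod_pow_eq_pow_sum _ _ _⟩⟩
  have B := hB N f W hW
  have hmem : ∀ x : κ → Po N, (∀ i, x i ∈ P i) → ip N (∏ i, x i) ∈ W.H c := fun x hx =>
    h1 _ (mem_coe.1 (hT ▸ ⟨_, mem_coe.2 (mem_image_of_mem _ (Fintype.mem_piFinset.2 hx)), rfl⟩))
  refine ⟨W, hW, fun i => ?_⟩
  have hex : ∀ j, ∃ p ∈ (P i).filter (· ≠ 0), ∀ q ∈ (P i).filter (· ≠ 0),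
      (W.v j).v (ip N p) ≤ (W.v j).v (ip N q) := fun j =>
    exists_min_image _ _ ⟨_, mem_filter.2 ⟨hr i, pow_ne_zero _ hf.1⟩⟩
  choose m hm hm' using hex
  refine ⟨fun j => -(W.v j).v (ip N (m j)), fun p hp => (hH N f W hW _ _).2
    ⟨⟨0, p, by simp⟩, fun j => ?_⟩, fun V hV => ?_⟩
  · by_cases h : p = 0
    · exact Or.inl (by rw [h, map_zero])
    · exact Or.inr (by simpa using hm' j p (mem_filter.2 ⟨hp, h⟩))
  obtain ⟨b, hb⟩ := hW.cov V hV
  obtain ⟨g, hg, hgV⟩ := h2 V hV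
  obtain ⟨_, hy, rfl⟩ : g ∈ ip N '' _ := hT ▸ mem_coe.2 hg
  obtain ⟨x, hx, rfl⟩ := mem_image.1 (mem_coe.1 hy)
  rw [Fintype.mem_piFinset] at hx
  have hu := hgV b hb
  have hx0 : ip N (∏ i, x i) ≠ 0 := left_ne_zero_of_mul hu.1
  have e1 : ∀ y : κ → Po N, ∏ i, y i = y i * ∏ k ∈ univ.erase i, y k := fun y =>
    (mul_prod_erase _ _ (mem_univ i)).symm
  rw [e1, map_mul] at hx0
  have key : ∀ p ∈ P i, Lc (W.S.A b) V (ip N p / ip N (x i)) := fun p hp => by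
    have h3 := ((hN N f W hW).H _ _).1 (hmem (Function.update x i p) fun k => by
      by_cases hk : k = i
      · subst hk; rwa [Function.update_self]
      · rw [Function.update_of_ne hk]; exact hx k) b
    refine ⟨_, ((hN N f W hW).H _ _).1 (hmem x hx) b, hu, ?_⟩
    have e2 : ∏ k ∈ univ.erase i, Function.update x i p k = ∏ k ∈ univ.erase i, x k :=
      prod_congr rfl fun k hk => Function.update_of_ne (ne_of_mem_erase hk) p x
    rw [e1, Function.update_self, e2, map_mul] at h3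
    have : ip N (∏ i, x i) * W.mon b c * (ip N p / ip N (x i)) =
        ip N p * ip N (∏ k ∈ univ.erase i, x k) * W.mon b c := by
      have := left_ne_zero_of_mul hx0
      rw [e1, map_mul]; field_simp
    rw [this]
    exact h3
  have hxi := left_ne_zero_of_mul hx0
  obtain ⟨U, hU, e⟩ := hW.ord b
  refine ⟨x i, hx i, B.gen_congr V _ _ _ (fun j hj => ?_) (hM N f W hW b V _
    (ip N (f ^ r i) / ip N (x i) * ((U⁻¹ : (KK N)ˣ) : KK N) ^ r i) (r i • W.aa) hb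
    (Lc.of_mem (hW.pol b _)) ((key _ (hr i)).mul (Lc.of_mem (pow_mem hU.2 _))) ?_)⟩
  · obtain ⟨a1, -, -, a2⟩ := B.in_v b V j hb hj
    have h3 := (key _ (mem_filter.1 (hm j)).1).mem a1 fun s hs h => (W.v j).un_O.2 ⟨h.1, a2 s hs h⟩
    have h4 : ip N (m j) ≠ 0 := fun h => (mem_filter.1 (hm j)).2 (ip_inj (h.trans (map_zero _).symm))
    have h5 := hm' j _ (mem_filter.2 ⟨hx i, fun h => hxi (by rw [h, map_zero])⟩)
    have h6 := h3.resolve_left (div_ne_zero h4 hxi)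
    rw [(W.v j).div h4 hxi] at h6
    omega
  · rw [B.mon_nsmul, map_pow, e, Units.val_inv_eq_inv_val, mul_pow, inv_pow]
    have := pow_ne_zero (r i) U.ne_zero
    field_simp

theorem many (h0 : SB1raw) (hB : SBas) (hN : SNb) (hH : SH) (hM : SMono) (hf : Gd f) (κ : Type)
    [Fintype κ] (T : κ → Finset (KK N))
    (h1 : ∀ i, ∀ g ∈ T i, ∃ (r : ℕ) (p : Po N), ip N f ^ r * g = ip N p)
    (h2 : ∀ i, ∃ r : ℕ, ip N f ^ r ∈ T i) :
    ∃ W : Mod N, W.OK f ∧ ∀ i, ∃ c, W.Gens c (T i) := by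
  classical
  have hf' : ip N f ≠ 0 := fun h => hf.1 (ip_inj (h.trans (map_zero _).symm))
  choose! r p hp using h1
  let R : κ → ℕ := fun i => (T i).sup (r i)
  let q : κ → KK N → Po N := fun i g => f ^ (R i - r i g) * p i g
  have hq : ∀ i, ∀ g ∈ T i, ip N (q i g) * (ip N f ^ R i)⁻¹ = g := fun i g hg => by
    rw [mul_inv_eq_iff_eq_mul₀ (pow_ne_zero _ hf'), map_mul, map_pow, ← hp i g hg, ← mul_assoc,
      ← pow_add, Nat.sub_add_cancel (le_sup (f := r i) hg), mul_comm]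
  obtain ⟨W, hW, h⟩ := poly h0 hB hN hH hM hf κ (fun i => (T i).image (q i)) fun i => by
    obtain ⟨s, hs⟩ := h2 i
    refine ⟨s + R i, mem_image.2 ⟨_, hs, ip_inj ?_⟩⟩
    rw [map_pow, pow_add]
    exact (mul_inv_eq_iff_eq_mul₀ (pow_ne_zero _ hf')).1 (hq i _ hs)
  have B := hB N f W hW
  refine ⟨W, hW, fun i => ?_⟩
  obtain ⟨c, a1, a2⟩ := h i
  have hg := fun V => B.gen_inv V _ _ (B.gen_pow V _ _ (R i) (B.gen_f V))
  refine ⟨c + -(R i • -W.aa), fun g hg' V hV => ?_, fun V hV => ?_⟩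
  · rw [← hq i g hg']
    exact B.oc_mul V _ _ _ _ (a1 _ (mem_image_of_mem _ hg') V hV) (B.gen_oc V _ _ (hg V))
  · obtain ⟨_, hp', a3⟩ := a2 V hV
    obtain ⟨g, hg', rfl⟩ := mem_image.1 hp'
    exact ⟨g, hg', hq i g hg' ▸ B.gen_mul V _ _ _ _ a3 (hg V)⟩

end RB1

open RB1 in
theorem rowB1 : OfB1 := by
  classical
  intro h0 hB hN hH hM hk1 hk2 N f M hOK κ _ T h1 h2
  have hf' := f_ne hOK
  have hf := hOK.gd
  have B := hB N f M hOK
  obtain ⟨w, κ₀, _, b, t, ρ, hA⟩ := hOK.amp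
  obtain ⟨s, hs⟩ := B.f_pow w
  have hs' := (hs s le_rfl).1
  obtain ⟨W, hW, h⟩ := many h0 hB hN hH hM hf (Option κ)
    (fun o => o.elim (insert (ip N f ^ s) (univ.image ρ)) T) (fun o g hg => by
      cases o with
      | none =>
        rcases mem_insert.1 hg with rfl | hg
        · exact ((hH N f M hOK _ _).1 hs').1
        · obtain ⟨i, -, rfl⟩ := mem_image.1 hg
          exact ((hH N f M hOK _ _).1 (hA.sec i)).1
      | some i => exact let ⟨c, hc⟩ := h1 i; ((hH N f M hOK _ _).1 (hc g hg)).1)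
    fun o => by
      cases o with
      | none => exact ⟨s, mem_insert_self _ _⟩
      | some i => exact h2 i
  obtain ⟨c, a1, a2⟩ := h none
  have a3 : ∀ i, ρ i ∈ W.H c := fun i =>
    a1 _ (mem_insert_of_mem (mem_image_of_mem _ (mem_univ i)))
  refine ⟨W, hW, hk2 N f W M hW hOK (hk1 N f W M hW hOK κ₀ w b t ρ c hA a3 fun V hV => ?_),
    fun i => h (some i)⟩
  obtain ⟨g, hg, a4⟩ := a2 V hV
  rcases mem_insert.1 hg with rfl | hg
  · obtain ⟨i, hi⟩ := hA.cov V hV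
    have b1 := (B.oc_div V w _ _ hV hi).1 (hs' V hV)
    have b2 := ((hB N f W hW).oc_div V c _ _ hV a4).1 (a3 i V hV)
    obtain ⟨a, ha⟩ := hOK.cov V hV
    have b3 : ρ i ≠ 0 := left_ne_zero_of_mul (hi a ha).1
    have b4 := pow_ne_zero s hf'
    refine ⟨i, fun a' ha' => ?_⟩
    have : ρ i * W.mon a' c = ρ i / ip N f ^ s * (ip N f ^ s * W.mon a' c) := by field_simp
    rw [this]
    exact Un.mul ⟨div_ne_zero b3 b4, b2, by rwa [inv_div]⟩ (a4 a' ha')
  · obtain ⟨i, -, rfl⟩ := mem_image.1 hg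
    exact ⟨i, a4⟩

end Pool.Agent.MP_ee8c61_ag.N3.M3E
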