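import Pool.Agent.MP_ee8c61_ag.N3E.Spec

/-!
The calculus of sections and generators.
-/

namespace Pool.Agent.MP_ee8c61_ag.N3.M3E

open Pool.Agent.MP_ee8c61_ag.M3

set_option linter.unusedSectionVars false

variable [Base]

open H59 M3 Finset

namespace B2x

variable {N : ℕ} {f : Po N} {M : Mod N} (B : Bas1 M) {V : Vl N} {c c' : M.J → ℤ} {g h : KK N}
include B

theorem e_mul (b : M.ι) : g * h * M.mon b (c + c') = g * M.mon b c * (h * M.mon b c') := by
  rw [B.mon_add, mul_mul_mul_comm]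

theorem e_pow (b : M.ι) (r : ℕ) : g ^ r * M.mon b (r • c) = (g * M.mon b c) ^ r := by
  rw [B.mon_nsmul, mul_pow]

theorem e_sub (b : M.ι) (c c' : M.J → ℤ) : g * M.mon b c' = g * M.mon b c * M.mon b (c' - c) := by
  rw [mul_assoc, ← B.mon_add, add_sub_cancel]

theorem oc_mul (h1 : M.Oc V c g) (h2 : M.Oc V c' h) : M.Oc V (c + c') (g * h) := fun b hb => by
  rw [e_mul B]; exact mul_mem (h1 b hb) (h2 b hb)

theorem oc_mono (hc : ∀ j, M.Thru V j → c j ≤ c' j) (h1 : M.Oc V c g) : M.Oc V c' g :=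
  fun b hb => by
    rw [e_sub B b c c']
    exact mul_mem (h1 b hb) (B.mem_of b V _ hb fun j hj => sub_nonneg.2 (hc j hj))

theorem gen_mul (h1 : M.Gen V c g) (h2 : M.Gen V c' h) : M.Gen V (c + c') (g * h) :=
  fun b hb => by rw [e_mul B]; exact (h1 b hb).mul (h2 b hb)

theorem gen_pow (r : ℕ) (h1 : M.Gen V c g) : M.Gen V (r • c) (g ^ r) :=
  fun b hb => by rw [e_pow B]; exact (h1 b hb).pow r

theorem oc_pow (r : ℕ) (h1 : M.Oc V c g) : M.Oc V (r • c) (g ^ r) :=
  fun b hb => by rw [e_pow B]; exact pow_mem (h1 b hb) r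

theorem gen_inv (h1 : M.Gen V c g) : M.Gen V (-c) g⁻¹ :=
  fun b hb => by rw [B.mon_neg, ← mul_inv]; exact (h1 b hb).inv

theorem sm {o : M.J} (hV : V ≤ (M.v o).O) (hg : g ∈ (M.v o).F (1 - c o)) (b : M.ι)
    (hb : M.In b V) : g * M.mon b c ∈ V ∧ ¬Un V (g * M.mon b c) := by
  have := (M.v o).F_mul hg ((M.v o).mem_F_self (M.mon b c))
  rw [B.v_mon b o c fun x hx => hV (hb x hx), sub_add_cancel] at this
  exact B.small V o hV _ this

theorem R_F {o : M.J} (hg : g ∈ M.R o c) : g ∈ (M.v o).F (-c o) :=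
  (B.oc_v o c g).1 (hg _ (B.ov_v o) le_rfl)

theorem free_zero : M.Free 0 :=
  ⟨{1}, fun g hg V _ b _ => by rw [mem_singleton.1 hg, B.mon_zero, mul_one]; exact one_mem _,
    fun V _ => ⟨1, mem_singleton_self _, fun b _ => by rw [B.mon_zero, mul_one]; exact un_one⟩⟩

theorem free_add (h1 : M.Free c) (h2 : M.Free c') : M.Free (c + c') := by
  classical
  obtain ⟨T, a1, a2⟩ := h1
  obtain ⟨T', b1, b2⟩ := h2
  refine ⟨image₂ (· * ·) T T', fun g hg V hV => ?_, fun V hV => ?_⟩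
  · obtain ⟨u, hu, u', hu', rfl⟩ := mem_image₂.1 hg
    exact oc_mul B (a1 u hu V hV) (b1 u' hu' V hV)
  · obtain ⟨u, hu, e⟩ := a2 V hV
    obtain ⟨u', hu', e'⟩ := b2 V hV
    exact ⟨u * u', mem_image₂_of_mem hu hu', gen_mul B e e'⟩

theorem free_nsmul (r : ℕ) (h1 : M.Free c) : M.Free (r • c) := by
  induction r with
  | zero => rw [zero_smul]; exact free_zero B
  | succ r ih => rw [succ_nsmul]; exact free_add B ih h1

theorem gen_f (hM : M.OK f) (V : Vl N) : M.Gen V (-M.aa) (ip N f) := fun b hb => by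
  obtain ⟨U, hU, e⟩ := hM.ord b
  rw [e, B.mon_neg, mul_inv_cancel_right₀ (M.mon_ne _ _)]
  exact ⟨U.ne_zero, hb _ hU.1, Units.val_inv_eq_inv_val U ▸ hb _ hU.2⟩

omit B in
theorem free_of (h1 : ∀ V, M.Gen V c g) : M.Free c :=
  ⟨{g}, fun _ hg V _ b hb => mem_singleton.1 hg ▸ (h1 V b hb).2.1,
    fun V _ => ⟨g, mem_singleton_self _, h1 V⟩⟩

end B2x

open B2x

theorem rowBas : OfBas := fun hB N f M hM =>
  have B := hB N f M hM
  { B with
    oc_add := fun V c g h h1 h2 b hb => by rw [add_mul]; exact add_mem (h1 b hb) (h2 b hb)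
    oc_sub := fun V c g h h1 h2 b hb => by rw [sub_mul]; exact sub_mem (h1 b hb) (h2 b hb)
    oc_mul := fun _ _ _ _ _ => oc_mul B
    oc_pow := fun _ _ _ => oc_pow B
    oc_root := fun V c g r hr h1 b hb => mem_of_pow hr (e_pow B b r ▸ h1 b hb)
    oc_mono := fun _ _ _ _ => oc_mono B
    oc_div := fun V c g h hV h1 => by
      obtain ⟨b, hb⟩ := hM.cov V hV
      have u := h1 b hb
      rw [B.oc_iff b V c g hb, ← u.mem_iff (g := g / h), ← mul_assoc,
        div_mul_cancel₀ _ (left_ne_zero_of_mul u.1)]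
    gen_oc := fun V c g h1 b hb => (h1 b hb).2.1
    gen_mul := fun _ _ _ _ _ => gen_mul B
    gen_pow := fun _ _ _ => gen_pow B
    gen_root := fun V c g r hr h1 b hb => Un.of_pow hr (e_pow B b r ▸ h1 b hb)
    gen_inv := fun _ _ _ => gen_inv B
    gen_of_mul := fun V c c' g h h1 h2 h3 b hb =>
      Un.of_mul (e_mul B b ▸ h3 b hb) (h1 b hb) (h2 b hb)
    gen_congr := fun V c c' g hc h1 b hb => by
      rw [e_sub B b c c']
      exact (h1 b hb).mul (B.un_of b V _ hb fun j hj => sub_eq_zero.2 (hc j hj).symm)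
    gen_small := fun V o c g h hV h1 h2 b hb => by
      have := (h1 b hb).add (sm B hV h2 b hb).1 (sm B hV h2 b hb).2
      rwa [← add_mul, add_sub_cancel] at this
    gen_f := gen_f B hM
    f_pow := fun c => by
      refine ⟨∑ j, (1 - c j).toNat, fun r hr => ?_⟩
      have k : ∀ j, 1 - c j ≤ r * M.aa j := fun j => by
        have a := single_le_sum (f := fun j => (1 - c j).toNat) (fun _ _ => Nat.zero_le _)
          (mem_univ j)
        have b : (1 : ℤ) ≤ M.aa j := by have := hM.pos j; simp only [Mod.aa]; omega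
        have : (r : ℤ) * 1 ≤ r * M.aa j := mul_le_mul_of_nonneg_left b (Nat.cast_nonneg r)
        omega
      refine ⟨fun V _ => oc_mono B (fun j _ => ?_) fun b hb =>
        (gen_pow B r (gen_f B hM V) b hb).2.1, fun j => Or.inr ?_⟩
      · have := k j
        simp only [Pi.smul_apply, Pi.neg_apply, nsmul_eq_mul]
        linarith
      · have := ((B.gen_v j _ _).1 (gen_f B hM (M.v j).O)).2
        rw [DV.pow, this, Pi.neg_apply, neg_neg]
        exact k j
    H_R := fun o c g hg V hV _ => hg V hV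
    F_R := fun o c g hg V _ hV b hb => (sm B hV hg b hb).1
    R_F := fun _ _ _ => R_F B
    lf_R := fun o c s ⟨g, h1, h2⟩ V hV hV' b hb => by
      have := add_mem (sm B hV' h2 b hb).1 (h1 V hV b hb)
      rwa [← add_mul, sub_add_cancel] at this
    lf_mul := fun o c c' s s' ⟨g, h1, h2⟩ ⟨g', h3, h4⟩ => by
      refine ⟨g * g', fun V hV => oc_mul B (h1 V hV) (h3 V hV), ?_⟩
      have a : g ∈ (M.v o).F (-c o) := R_F B fun V hV _ => h1 V hV
      have a' : g' ∈ (M.v o).F (-c' o) := R_F B fun V hV _ => h3 V hV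
      rw [show s * s' - g * g' = (s - g) * (s' - g') + (s - g) * g' + g * (s' - g') by ring]
      refine add_mem (add_mem ((M.v o).F_anti ?_ ((M.v o).F_mul h2 h4))
        ((M.v o).F_anti ?_ ((M.v o).F_mul h2 a'))) ((M.v o).F_anti ?_ ((M.v o).F_mul a h4)) <;>
        simp only [Pi.add_apply] <;> omega
    lf_mono := fun o c c' s hc e ⟨g, h1, h2⟩ =>
      ⟨g, fun V hV => oc_mono B (fun j _ => hc j) (h1 V hV), e ▸ h2⟩
    free_zero := free_zero B
    free_add := fun _ _ => free_add B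
    free_nsmul := fun _ => free_nsmul B
    free_aa := fun r => by
      obtain ⟨n, rfl | rfl⟩ := r.eq_nat_or_neg
      · rw [natCast_zsmul]
        exact free_nsmul B n (free_of fun V => neg_neg M.aa ▸ gen_inv B (gen_f B hM V))
      · rw [neg_smul, natCast_zsmul, ← smul_neg]
        exact free_nsmul B n (free_of (gen_f B hM))
    amp_free := fun w ⟨κ, _, b, t, ρ, hA⟩ => by
      classical
      refine ⟨univ.image ρ, fun g hg => ?_, fun V hV => ?_⟩
      · obtain ⟨i, -, rfl⟩ := mem_image.1 hg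
        exact hA.sec i
      · obtain ⟨i, hi⟩ := hA.cov V hV
        exact ⟨ρ i, mem_image_of_mem _ (mem_univ i), hi⟩
    gens_bpf := fun o c T h => ⟨fun u hu V hV _ => h.1 u hu V hV, fun V hV _ => h.2 V hV⟩
    bpf_mul := fun o c c' U U' ⟨a1, a2⟩ ⟨b1, b2⟩ => by
      classical
      refine ⟨image₂ (· * ·) U U', ⟨fun g hg V hV hV' => ?_, fun V hV hV' => ?_⟩, fun g hg => ?_⟩
      · obtain ⟨u, hu, u', hu', rfl⟩ := mem_image₂.1 hg
        exact oc_mul B (a1 u hu V hV hV') (b1 u' hu' V hV hV')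
      · obtain ⟨u, hu, e⟩ := a2 V hV hV'
        obtain ⟨u', hu', e'⟩ := b2 V hV hV'
        exact ⟨u * u', mem_image₂_of_mem hu hu', gen_mul B e e'⟩
      · obtain ⟨u, hu, u', hu', rfl⟩ := mem_image₂.1 hg
        exact ⟨u, hu, u', hu', rfl⟩
    bpf_pow := fun o c U r ⟨a1, a2⟩ => by
      classical
      refine ⟨U.image (· ^ r), ⟨fun g hg V hV hV' => ?_, fun V hV hV' => ?_⟩, fun g hg => ?_⟩
      · obtain ⟨u, hu, rfl⟩ := mem_image.1 hg
        exact oc_pow B r (a1 u hu V hV hV')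
      · obtain ⟨u, hu, e⟩ := a2 V hV hV'
        exact ⟨u ^ r, mem_image_of_mem _ hu, gen_pow B r e⟩
      · obtain ⟨u, hu, rfl⟩ := mem_image.1 hg
        exact ⟨u, hu, rfl⟩ }

end Pool.Agent.MP_ee8c61_ag.N3.M3E
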