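import Pool.Agent.MP_ee8c61_ag.N3E.Spec

/-!
Global sections of a divisor on a model, described by the valuations of the divisors.
-/

namespace Pool.Agent.MP_ee8c61_ag.N3.M3E

open Pool.Agent.MP_ee8c61_ag.M3

set_option linter.unusedSectionVars false

variable [Base]

open H59 M3 Finset

namespace RH

variable {N : ℕ}

/-- An element of all valuation rings over the polynomials is a polynomial. -/
theorem poly (g : KK N) (h : ∀ V : Vl N, Ov V → g ∈ V) : ∃ p, g = ip N p :=
  ⟨⟨g, mem_Rb.2 h⟩, rfl⟩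

/-- Lowering of the exponents along the divisors through the centre of `V`. -/
theorem low {f : Po N} {M : Mod N} (ok : M.OK f) (B : Bas f M) (b : M.ι) (V : Vl N)
    (hV : M.In b V) (x : KK N) (hx : ∀ j, M.Thru V j → x ∈ (M.v j).F 0) :
    ∀ (n : ℕ) (e : M.J → ℤ), ∑ j, (e j).toNat = n → x * M.mon b e ∈ M.S.A b → x ∈ V := by
  intro n
  induction n using Nat.strong_induction_on with
  | _ n ih =>
    intro e hn he
    by_cases h : ∃ j, M.Thru V j ∧ 0 < e j
    · obtain ⟨j, hj, hp⟩ := h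
      obtain ⟨h1, h2, -, -⟩ := B.in_v b V j hV hj
      have h3 : M.mon b e ∈ (M.v j).F 1 := Or.inr (by rw [B.v_mon b j e h1]; exact hp)
      have h4 := (ok.dv b j h2).2.2 _ he (by simpa using (M.v j).F_mul (hx j hj) h3)
      refine ih _ ?_ (e + (-1 : ℤ) • M.e j) rfl ?_
      · rw [← hn]
        refine sum_lt_sum (fun i _ => ?_) ⟨j, mem_univ _, ?_⟩
        · have : 0 ≤ M.e j i := by rw [M.e_apply]; split_ifs <;> simp
          simp only [Pi.add_apply, Pi.smul_apply, smul_eq_mul]
          omega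
        · have : M.e j j = 1 := by rw [M.e_apply, if_pos rfl]
          simp only [Pi.add_apply, Pi.smul_apply, smul_eq_mul]
          omega
      · rwa [B.mon_add, B.mon_e, zpow_neg_one, ← mul_assoc]
    · have h1 : M.mon b (-e) ∈ V := B.mem_of b V _ hV fun j hj => by
        have : ¬0 < e j := fun hp => h ⟨j, hj, hp⟩
        simp only [Pi.neg_apply]
        omega
      have h2 := mul_mem (hV _ he) h1
      rwa [B.mon_neg, mul_inv_cancel_right₀ (M.mon_ne b e)] at h2

end RH

theorem rowH : OfH := by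
  intro hB N f M ok c g
  have B : Bas f M := hB N f M ok
  refine ⟨fun hg => ⟨?_, fun j => (B.oc_v j c g).1 (hg _ (B.ov_v j))⟩, fun ⟨⟨r, p, hp⟩, hv⟩ => ?_⟩
  · refine ⟨∑ j, (c j).toNat, RH.poly _ fun V hV => ?_⟩
    obtain ⟨b, hb⟩ := ok.cov V hV
    have h1 := B.oc_mul V _ _ _ _
      (B.gen_oc V _ _ (B.gen_pow V _ _ (∑ j, (c j).toNat) (B.gen_f V))) (hg V hV)
    have h2 := B.oc_mono V _ 0 _ (fun j _ => ?_) h1 b hb
    · rwa [B.mon_zero, mul_one] at h2
    · have a1 : (c j).toNat ≤ ∑ i, (c i).toNat :=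
        single_le_sum (f := fun i => (c i).toNat) (fun _ _ => Nat.zero_le _) (mem_univ j)
      have a2 : (∑ i, (c i).toNat) * 1 ≤ (∑ i, (c i).toNat) * M.a j :=
        Nat.mul_le_mul_left _ (ok.pos j)
      have a3 : (((∑ i, (c i).toNat) • -M.aa + c) j : ℤ) =
          -(((∑ i, (c i).toNat) * M.a j : ℕ) : ℤ) + c j := by
        rw [Pi.add_apply, Pi.smul_apply, Pi.neg_apply, nsmul_eq_mul, mul_neg, Nat.cast_mul]
        rfl
      rw [a3, Pi.zero_apply]
      omega
  · intro V _ b hb
    obtain ⟨U, hU, hf⟩ := ok.ord b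
    refine RH.low ok B b V hb _ (fun j hj => ?_) _ (r • M.aa + -c) rfl ?_
    · have h1 : M.mon b c ∈ (M.v j).F (c j) :=
        Or.inr (B.v_mon b j c (B.in_v b V j hb hj).1).ge
      simpa using (M.v j).F_mul (hv j) h1
    · have h1 : g * M.mon b c * M.mon b (r • M.aa + -c) =
          ip N p * ((U⁻¹ : (KK N)ˣ) : KK N) ^ r := by
        have h0 : (U : KK N) ≠ 0 := U.ne_zero
        have h2 := M.mon_ne b c
        rw [← hp, hf, B.mon_add, B.mon_neg, B.mon_nsmul, Units.val_inv_eq_inv_val, inv_pow,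
          mul_pow]
        field_simp
      rw [h1]
      exact mul_mem (ok.pol b p) (pow_mem hU.2 r)

end Pool.Agent.MP_ee8c61_ag.N3.M3E
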