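import Pool.Agent.MP_ee8c61_ag.N3E.Spec

/-! The basic lifting lemma. -/

namespace Pool.Agent.MP_ee8c61_ag.N3.M3E

open Pool.Agent.MP_ee8c61_ag.M3

set_option linter.unusedSectionVars false

variable [Base]

open H59 M3 Finset

namespace RL

open Filter Topology in
theorem small {J : Type} [Finite J] (x δ : J → ℚ) (hδ : ∀ i, 0 < δ i) {ε0 : ℚ} (h0 : 0 < ε0) :
    ∃ ε, 0 < ε ∧ ε ≤ ε0 ∧ ∀ i, ε * x i < δ i := by
  have h1 : ∀ᶠ ε in 𝓝 (0 : ℚ), ∀ i, ε * x i < δ i := eventually_all.2 fun i =>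
    ContinuousAt.eventually_lt (f := fun ε => ε * x i) (g := fun _ => δ i) (by fun_prop)
      continuousAt_const (by simpa using hδ i)
  have h2 : ∀ᶠ ε in 𝓝[>] (0 : ℚ), 0 < ε ∧ ε ≤ ε0 ∧ ∀ i, ε * x i < δ i :=
    eventually_mem_nhdsWithin.and (((eventually_le_nhds h0).and h1).filter_mono nhdsWithin_le_nhds)
  exact h2.exists

end RL

open RL in
theorem rowL : OfL := by
  classical
  intro bas aq l0 dc b1 a4 jd plt mn N f M hM o G V c Z A β t n σ U hZ hA hβ ht hn htn hlt hG hσ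
    hU hl u' hu'
  have B := bas N f M hM
  have hup : M.up (-β) o = 0 := by simp [Mod.up, hβ]
  by_cases h0 : σ ∈ (M.v o).F (1 - c o)
  · refine ⟨0, fun V' _ b _ => by rw [zero_mul]; exact zero_mem _, ?_⟩
    have := (M.v o).F_mul h0 (B.R_F o _ _ hu')
    rw [sub_zero, Pi.add_apply, hup]
    refine (M.v o).F_anti (le_of_eq ?_) this
    rw [Pi.sub_apply]
    ring
  choose! g g1 g2 using hl
  obtain ⟨r, hr⟩ := B.f_pow V
  obtain ⟨r1, r2⟩ := hr r le_rfl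
  have hT : ∀ x ∈ insert (ip N f ^ r) (U.image g), x ∈ M.H V := by
    intro x hx
    rcases mem_insert.1 hx with rfl | hx
    · exact r1
    · obtain ⟨u, hu, rfl⟩ := mem_image.1 hx
      exact g1 u hu
  obtain ⟨W, hW, ⟨D⟩, hP⟩ := b1 N f M hM Unit (fun _ => insert (ip N f ^ r) (U.image g))
    (fun _ => ⟨V, hT⟩) fun _ => ⟨r, mem_insert_self _ _⟩
  obtain ⟨P, hP⟩ := hP ()
  obtain ⟨m1, m2, e, e1, -, e3⟩ := mn N f W M D hW hM o V c Z n σ U _ P hZ hn hσ h0 hU hT hP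
    (fun u hu => ⟨g u, mem_insert_of_mem (mem_image_of_mem _ hu), g2 u hu⟩) fun x hx => by
      rcases mem_insert.1 hx with rfl | hx
      · exact Or.inl (r2 o)
      · obtain ⟨u, hu, rfl⟩ := mem_image.1 hx
        exact Or.inr ⟨u, hu, g2 u hu⟩
  have BW := bas N f W hW
  have C := dc N f W M D hW hM
  have Q := aq N f W hW
  obtain ⟨Ξ, -, x2, ε0, x3, x4⟩ := a4 N f W M D hW hM A hA
  obtain ⟨-, -, p3⟩ := plt N f W M D hW hM o (β + t • M.q Z) (by simp [hβ, hZ])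
    fun j => by simpa using hlt j
  obtain ⟨ε, s1, s2, s3⟩ := small (W.q Ξ) _ (fun i => sub_pos.2 (p3 i)) x3
  have hN := Q.add _ _ (x4 ε s1 s2) (Q.smul' _ t ht (Q.of_free P ⟨_, hP⟩))
  have key : ∀ j, (G j : ℚ) = M.kk j + M.e o j + A j + β j + t * V j := fun j => by
    simpa using congrFun hG j
  have hk : ∀ j, W.kk (D.e j) = M.kk j := fun j =>
    congrArg Nat.cast ((jd N f W M D hW hM).2 j)
  have he : ∀ j, W.e (D.e o) (D.e j) = M.e o j := fun j => by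
    simp only [Mod.e_apply, C.inj.eq_iff]
  have hx : ∀ j, Ξ (D.e j) = 0 := fun j => congrFun x2 j
  have hv : ∀ j, D.pf (W.kk + W.e (D.e o) + W.up (D.pb A - ε • W.q Ξ + t • W.q P)) j =
      G j + ⌈-β j - t * (V j - P (D.e j))⌉ := fun j => by
    have : (D.pb A - ε • W.q Ξ + t • W.q P) (D.e j) =
        -β j - t * (V j - P (D.e j)) + ((G j - M.kk j - M.e o j : ℤ) : ℚ) := by
      simp only [Pi.add_apply, Pi.sub_apply, Pi.smul_apply, C.pb_e, Mod.q_apply, hx, smul_eq_mul]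
      push_cast
      rw [key j]
      ring
    change W.kk (D.e j) + W.e (D.e o) (D.e j) + ⌈(D.pb A - ε • W.q Ξ + t • W.q P) (D.e j)⌉ = _
    rw [hk, he, this, Int.ceil_add_intCast]
    ring
  refine B.lf_mono o _ _ _ (fun j => ?_) ?_ (C.lf o _ _ (l0 N f W hW (D.e o) _ hN _ ?_))
  · rw [hv]
    refine add_le_add le_rfl (Int.ceil_mono ?_)
    have h1 : P (D.e j) ≤ V j := (m1 (D.e j)).trans_eq (C.pb_e ℤ V j)
    have h2 : (P (D.e j) : ℚ) ≤ V j := by exact_mod_cast h1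
    exact sub_le_self _ (mul_nonneg ht (sub_nonneg.2 h2))
  · rw [hv, m2]
    simp [Mod.up]
  · intro V' h1 h2
    obtain ⟨y1, y2⟩ := e3 V' h1 (D.v o ▸ h2)
    refine BW.oc_mono V' _ _ _ (fun i hi => ?_)
      (BW.oc_mul V' _ _ _ _ (BW.gen_oc V' _ _ y1) ((C.R o _).ge hu' V' h1 h2))
    have z1 : ((D.pb G i : ℤ) : ℚ) = D.pb (M.q (M.kk + M.e o)) i + D.pb A i + D.pb β i +
        t * (D.pb V i : ℤ) := by
      have := congrFun (D.q_pb G) i
      rw [hG, D.pb_add, D.pb_add, D.pb_add, D.pb_smul, ← D.q_pb V] at this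
      exact this
    have z2 : D.bd o (β + t • M.q Z) i = D.pb (M.q (M.kk + M.e o)) i + (D.pb β i +
        t * (D.pb Z i : ℤ)) - ((W.kk + W.e (D.e o)) i : ℤ) := by
      rw [Dom.bd, D.pb_add, D.pb_add, D.pb_smul, ← D.q_pb Z]
      rfl
    have z3 : (n : ℚ) * e i = (D.pb V i : ℤ) - P i - (D.pb Z i : ℤ) := by
      exact_mod_cast y2 i hi
    have z4 : (0 : ℚ) ≤ (1 - t * n) * e i :=
      mul_nonneg (sub_nonneg.2 htn) (by exact_mod_cast e1 i)
    have z5 := s3 i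
    have z6 : D.pb G i - e i - (W.kk + W.e (D.e o)) i ≤
        ⌈D.pb A i - ε * W.q Ξ i + t * P i⌉ := by
      rw [Int.le_ceil_iff]
      rw [z2] at z5
      rw [Int.cast_sub, Int.cast_sub, z1]
      have z7 : t * (n * e i) = t * ((D.pb V i : ℤ) - P i - (D.pb Z i : ℤ)) := by rw [z3]
      linarith
    rw [D.pb_sub]
    change D.pb c i - e i + (D.pb G i - D.pb c i) ≤
      (W.kk + W.e (D.e o)) i + ⌈D.pb A i - ε * W.q Ξ i + t * P i⌉
    omega

end Pool.Agent.MP_ee8c61_ag.N3.M3E
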