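import Pool.Agent.MP_ee8c61_ag.N3E.Spec

/-! Row Mk1: a model that principalises an ample system dominates. -/

namespace Pool.Agent.MP_ee8c61_ag.N3.M3E

open Pool.Agent.MP_ee8c61_ag.M3

set_option linter.unusedSectionVars false

variable [Base]

open H59 M3

theorem rowMk1 : OfMk1 := by
  intro hB hN N f W M hW hM κ w b t ρ c hA hH hcov b' V hV
  have BW := hB N f W hW
  have BM := hB N f M hM
  have NW := hN N f W hW
  obtain ⟨i, hi⟩ := hcov V (BW.ov b' V hV)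
  refine ⟨b i, fun g hg => NW.lc b' V g hV fun V' hV' hu => ?_⟩
  have hO : Ov V' := BW.ov b' V' hV'
  have hmem : ∀ j, ρ j * W.mon b' c ∈ W.S.A b' := fun j => (NW.H c (ρ j)).1 (hH j) b'
  have h1 : Un V' (ρ i * W.mon b' c) := hu _ (hmem i) (hi b' hV)
  have hi0 : ρ i ≠ 0 := left_ne_zero_of_mul h1.1
  obtain ⟨j, hj⟩ := hA.cov V' hO
  obtain ⟨a, ha⟩ := hM.cov V' hO
  have hj0 : ρ j ≠ 0 := left_ne_zero_of_mul (hj a ha).1
  have h2 : ρ i / ρ j ∈ V' := (BM.oc_div V' w (ρ i) (ρ j) hO hj).1 (hA.sec i V' hO)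
  have h3 : (ρ i / ρ j)⁻¹ ∈ V' := by
    have hm := W.mon_ne b' c
    have e : (ρ i / ρ j)⁻¹ = ρ j * W.mon b' c * (ρ i * W.mon b' c)⁻¹ := by field_simp
    rw [e]
    exact mul_mem (hV' _ (hmem j)) h1.2.2
  have h4 : Un V' (ρ i / ρ j) := ⟨div_ne_zero hi0 hj0, h2, h3⟩
  have h5 : M.Gen V' w (ρ i) := fun a' ha' => by
    have e : ρ i * M.mon a' w = ρ i / ρ j * (ρ j * M.mon a' w) := by field_simp
    rw [e]
    exact h4.mul (hj a' ha')
  exact ((hA.gen i V' hO).1 h5).1 g hg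

end Pool.Agent.MP_ee8c61_ag.N3.M3E
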