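import Pool.Agent.MP_ee8c61_ag.N3E.Spec
import Pool.Agent.MP_ee8c61_ag.M3B1.Dvr

/-! Construction of a domination from the inclusion of local rings. -/

namespace Pool.Agent.MP_ee8c61_ag.N3.M3E

open Pool.Agent.MP_ee8c61_ag.M3

set_option linter.unusedSectionVars false

variable [Base]

open H59 M3

namespace RMk2

variable {N : ℕ} {f : Po N} {W M : Mod N}

theorem ex_one (h : M.OK f) (j : M.J) : ∃ z, (M.v j).v z = 1 :=
  let ⟨b, hb⟩ := h.ne j
  ⟨_, (h.dv b j hb).2.1⟩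

theorem ne_top (h : M.OK f) (j : M.J) : (M.v j).O ≠ ⊤ := fun e => by
  obtain ⟨z, hz⟩ := ex_one h j
  have h1 : z⁻¹ ∈ (M.v j).O := e ▸ ValuationSubring.mem_top _
  rcases h1 with h1 | h1
  · rw [inv_eq_zero.1 h1, (M.v j).zero] at hz
    omega
  · rw [(M.v j).inv, hz] at h1
    omega

/-- The local ring at `V` lies in the ring of every divisor through `V`. -/
theorem lc_mem (B : Bas f W) {b : W.ι} {V : Vl N} {i : W.J} (hb : W.In b V) (hi : W.Thru V i)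
    {g : KK N} (hg : Lc (W.S.A b) V g) : g ∈ (W.v i).O :=
  let ⟨h1, _, _, h2⟩ := B.in_v b V i hb hi
  hg.mem h1 fun s hs hu => (W.v i).un_O.2 ⟨hu.1, h2 s hs hu⟩

theorem ex_e (hW : W.OK f) (hM : M.OK f) (BW : Bas f W) (BM : Bas f M) (hR : Rd W M) (j : M.J) :
    ∃ i, W.v i = M.v j := by
  obtain ⟨b, hb⟩ := hW.cov _ (BM.ov_v j)
  obtain ⟨a, ha⟩ := hR b _ hb
  have hin : M.In a (M.v j).O := fun g hg => (ha g hg).mem' hb
  have hf : ¬Un (M.v j).O (ip N f) := fun h => by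
    have h1 := ((BM.gen_v j _ _).1 (BM.gen_f _)).2
    have h2 := ((M.v j).un_O.1 h).2
    have h3 := hM.pos j
    rw [h2, Pi.neg_apply, neg_neg, Mod.aa] at h1
    omega
  obtain ⟨i, hi⟩ : ∃ i, W.Thru (M.v j).O i := by
    by_contra hn
    exact hf ((BW.gen_f _ b hb).cancel (BW.un_of b _ _ hb fun i hi => absurd ⟨i, hi⟩ hn))
  have hle : (M.v j).O ≤ (W.v i).O := fun x hx => by
    obtain ⟨s, h1, h2, h3⟩ := BM.frac a j hin x hx
    have h4 := ((ha s h1).inv h2).mul (ha _ h3)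
    rw [inv_mul_cancel_left₀ h2.1] at h4
    exact lc_mem BW hb hi h4
  obtain ⟨z, hz⟩ := ex_one hW i
  obtain ⟨z', hz'⟩ := ex_one hM j
  exact ⟨i, M3B1.dv_uniq (M3B1.dv_max _ _ hle (ne_top hW i)) hz hz'⟩

theorem v_eq (BM : Bas f M) {d : DV (KK N)} {a a' : M.ι} (h : M.In a d.O) (h' : M.In a' d.O)
    (j : M.J) : d.v (M.η a j) = d.v (M.η a' j) := by
  have h1 := (d.un_O.1 (BM.un_η a a' _ j h h')).2
  rw [d.div (M.η_ne a j) (M.η_ne a' j)] at h1
  omega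

end RMk2

open RMk2

theorem rowMk2 : OfMk2 := by
  intro hB hMono N f W M hW hM hR
  have BW := hB N f W hW
  have BM := hB N f M hM
  choose e he using ex_e hW hM BW BM hR
  choose c hc using fun i => hM.cov _ (BW.ov_v i)
  have hm : ∀ i j a, M.In a (W.v i).O →
      ((((W.v i).v (M.η (c i) j)).toNat : ℕ) : ℤ) = (W.v i).v (M.η a j) := fun i j a ha => by
    rw [← v_eq BM (hc i) ha j]
    exact Int.toNat_of_nonneg (Or.resolve_left (hc i _ (BM.η_mem _ j)) (M.η_ne _ j))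
  refine ⟨⟨e, fun i j => ((W.v i).v (M.η (c i) j)).toNat, he, fun a b V ha hb j => ?_, hR⟩⟩
  obtain ⟨a0, h0⟩ := hR b V hb
  have hin : M.In a0 V := fun g hg => (h0 g hg).mem' hb
  obtain ⟨U, hU, e1⟩ := hM.ord a0
  obtain ⟨U', hU', e2⟩ := hW.ord b
  have hp : 0 ≤ M.aa - M.e j := fun k => by
    have := hM.pos k
    change (0 : ℤ) ≤ (M.a k : ℤ) - M.e j k
    rw [M.e_apply]
    split_ifs <;> omega
  have e3 : M.mon a0 M.aa = M.η a0 j * M.mon a0 (M.aa - M.e j) := by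
    have := BM.mon_e a0 j 1
    rw [one_smul, zpow_one] at this
    rw [← this, ← BM.mon_add, add_sub_cancel]
  have e4 : M.η a0 j * (M.mon a0 (M.aa - M.e j) * (U : KK N) * ((U'⁻¹ : (KK N)ˣ) : KK N)) =
      W.mon b W.aa := by
    rw [← mul_assoc, ← mul_assoc, ← e3, mul_comm _ (U : KK N), ← e1, e2, mul_comm, ← mul_assoc,
      Units.inv_mul, one_mul]
  have g1 := hMono N f W hW b V _ _ _ hb (h0 _ (BM.η_mem a0 j))
    (((h0 _ (BM.mon_mem a0 _ hp)).mul (h0 _ hU.1)).mul (Lc.of_mem hU'.2)) e4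
  have g2 := BW.gen_congr V _ (-fun i => ((((W.v i).v (M.η (c i) j)).toNat : ℕ) : ℤ)) _
    (fun i hi => by
      rw [Pi.neg_apply, hm i j a0 fun g hg => lc_mem BW hb hi (h0 g hg)]) g1 b hb
  rw [BW.mon_neg, ← div_eq_mul_inv] at g2
  have g3 := (BM.un_η a a0 V j ha hin).mul g2
  rwa [div_mul_div_cancel₀ (M.η_ne a0 j)] at g3

end Pool.Agent.MP_ee8c61_ag.N3.M3E
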