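import Pool.Agent.MP_ee8c61_ag.N3E.Spec

/-!
A section whose multiples by a free system lift becomes monomial.
-/

namespace Pool.Agent.MP_ee8c61_ag.N3.M3E

open Pool.Agent.MP_ee8c61_ag.M3

set_option linter.unusedSectionVars false

variable [Base]

open H59 M3 Finset

namespace RMn

variable {N : ℕ} {f : Po N} {W : Mod N}

theorem gen_le (B : Bas f W) (hW : W.OK f) {V V' : Vl N} (hV : Ov V) (h : V ≤ V')
    {c : W.J → ℤ} {g : KK N} (hg : W.Gen V c g) : W.Gen V' c g := by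
  obtain ⟨b, hb⟩ := hW.cov V hV
  exact (B.gen_iff b V' c g fun x hx => h (hb x hx)).2 ((hg b hb).mono h)

/-- The power of the section generates along the divisor. -/
theorem gen_pow (B : Bas f W) (hW : W.OK f) {E : W.J} {P Y : W.J → ℤ} {s : KK N}
    {U T : Finset (KK N)} (hU : W.Bpf E Y U) (hT : W.Gens P T)
    (h1 : ∀ u ∈ U, ∃ g ∈ T, s * u - g ∈ (W.v E).F (1 - P E))
    (h2 : ∀ g ∈ T, g ∈ (W.v E).F (1 - P E) ∨ ∃ u ∈ U, s * u - g ∈ (W.v E).F (1 - P E))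
    {V : Vl N} (hV : Ov V) (hle : V ≤ (W.v E).O) : W.Gen V (P - Y) s := by
  obtain ⟨g0, hg0, G0⟩ := hT.2 V hV
  obtain ⟨n0, v0⟩ := (B.gen_v E P g0).1 (gen_le B hW hV hle G0)
  obtain ⟨u0, hu0, e0⟩ := (h2 g0 hg0).resolve_left fun h => by
    have := h.resolve_left n0
    omega
  have G1 := B.gen_small V E P g0 _ hle G0 e0
  obtain ⟨u1, hu1, G2⟩ := hU.2 V hV hle
  obtain ⟨g1, hg1, e1⟩ := h1 u1 hu1
  have O1 : W.Oc V P (s * u1) := by
    have := B.oc_add V P _ _ (B.F_R E P _ e1 V hV hle) (hT.1 g1 hg1 V hV)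
    rwa [sub_add_cancel] at this
  have m1 := (B.oc_div V P _ _ hV G1).1 O1
  have m2 := (B.oc_div V Y _ _ hV G2).1 (hU.1 u0 hu0 V hV hle)
  obtain ⟨b, hb⟩ := hW.cov V hV
  have a0 : s * u0 ≠ 0 := left_ne_zero_of_mul (G1 b hb).1
  have a1 : u1 ≠ 0 := left_ne_zero_of_mul (G2 b hb).1
  have a2 : s ≠ 0 := left_ne_zero_of_mul a0
  have a3 : u0 ≠ 0 := right_ne_zero_of_mul a0
  rw [mul_div_mul_left _ _ a2] at m1
  have un : Un V (u1 / u0) := ⟨div_ne_zero a1 a3, m1, by rwa [inv_div]⟩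
  have G3 : W.Gen V P (s * u1) := by
    refine (B.gen_iff b V P _ hb).2 ?_
    rw [show s * u1 * W.mon b P = s * u0 * W.mon b P * (u1 / u0) by field_simp]
    exact (G1 b hb).mul un
  have G4 := B.gen_mul V _ _ _ _ G3 (B.gen_inv V _ _ G2)
  rwa [mul_inv_cancel_right₀ a1, ← sub_eq_add_neg] at G4

/-- Divisibility of the defect along the curves of the divisor. -/
theorem dvd_cv (B : Bas f W) (C : Cv W) (hW : W.OK f) {E i : W.J} {c Φ : W.J → ℤ} {n : ℕ}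
    {σ : KK N} (hσ : σ ∈ W.R E c) (h0 : σ ≠ 0) (hv : (W.v E).v σ = -c E) (hΦ : Φ E = 0)
    {V : Vl N} (hV : W.IsCv E i V) (G : W.Gen V (n • c - Φ) (σ ^ n)) :
    ∃ e : ℤ, 0 ≤ e ∧ Φ i = n * e := by
  obtain ⟨b, hb⟩ := hW.cov V hV.2.1
  have hbE : W.In b (W.v E).O := fun x hx => hV.2.2.1 (hb x hx)
  have t0 : σ * W.mon b c ≠ 0 := mul_ne_zero h0 (W.mon_ne b c)
  have tv : (W.v E).v (σ * W.mon b c) = 0 := by
    rw [(W.v E).mul _ _ h0 (W.mon_ne b c), hv, B.v_mon b E c hbE, neg_add_cancel]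
  obtain ⟨e, u1, he⟩ := C.un E i V b hV hb _ t0 tv
  refine ⟨e, he.1 (hσ V hV.2.1 hV.2.2.1 b hb), ?_⟩
  have u2 : Un V (W.mon b (Φ i • W.e i - Φ)) := by
    refine B.un_of b V _ hb fun j hj => ?_
    rcases C.thru E i V j hV hj with rfl | rfl
    · simp [Mod.e_apply, hV.1.symm, hΦ]
    · simp [Mod.e_apply]
  have u3 := G b hb
  have e1 : W.mon b (n • c - Φ) * W.η b i ^ Φ i = W.mon b c ^ n * W.mon b (Φ i • W.e i - Φ) := by
    rw [← B.mon_e, ← B.mon_add, ← B.mon_nsmul, ← B.mon_add,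
      show n • c - Φ + Φ i • W.e i = n • c + (Φ i • W.e i - Φ) by abel]
  have hη := W.η_ne b i
  have u4 : Un V (W.η b i ^ ((n : ℤ) * e - Φ i)) := by
    have := (u3.div u2).div (u1.pow n)
    have e2 : W.mon b (n • c - Φ) = W.mon b c ^ n * W.mon b (Φ i • W.e i - Φ) / W.η b i ^ Φ i :=
      eq_div_of_mul_eq (zpow_ne_zero _ hη) e1
    have m1 := W.mon_ne b c
    have m2 := W.mon_ne b (Φ i • W.e i - Φ)
    rw [e2] at this
    rw [zpow_sub₀ hη, mul_comm, zpow_mul, zpow_natCast]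
    refine (congrArg (Un V) ?_).mp this
    have m3 : W.η b i ^ Φ i ≠ 0 := zpow_ne_zero _ hη
    have m4 : W.η b i ^ e ≠ 0 := zpow_ne_zero _ hη
    rw [div_pow, mul_pow]
    field_simp
  have := (un_zpow_iff hη (hb _ (B.η_mem b i)) (hV.2.2.2.1 b hb) _).1 u4
  omega

end RMn

theorem rowMn : OfMn := by
  classical
  intro hB hC hCe hD N f W M D hW hM o V c Z n σ U T P hZ hn hσ hσ' hU hT hP h1 h2
  have BW := hB N f W hW
  have BM := hB N f M hM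
  have CW := hC N f W hW
  have DC := hD N f W M D hW hM
  have hv := D.v o
  have s1 : P ≤ D.pb V := fun i => by
    obtain ⟨g, hg, G⟩ := hP.2 _ (BW.ov_v i)
    obtain ⟨g0, gv⟩ := (BW.gen_v i P g).1 G
    have : -D.pb V i ≤ (W.v i).v g :=
      ((BW.oc_v i _ g).1 ((DC.H V).ge (hT g hg) _ (BW.ov_v i))).resolve_left g0
    show P i ≤ D.pb V i
    omega
  have σ0 : σ ≠ 0 := fun h => hσ' (Or.inl h)
  have σv : (M.v o).v σ = -c o := by
    have a := (BM.R_F o c σ hσ).resolve_left σ0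
    have b : ¬ 1 - c o ≤ (M.v o).v σ := fun h => hσ' (Or.inr h)
    omega
  have s2 : P (D.e o) = V o := by
    refine le_antisymm ((s1 _).trans (DC.pb_e ℤ V o).le) ?_
    obtain ⟨u, hu, G⟩ := hU.2 _ (BM.ov_v o) le_rfl
    obtain ⟨u0, uv⟩ := (BM.gen_v o _ u).1 G
    obtain ⟨g, hg, e⟩ := h1 u hu
    have a1 : (M.v o).v (σ ^ n * u) = -V o := by
      rw [(M.v o).mul _ _ (pow_ne_zero _ σ0) u0, DV.pow, σv, uv]
      rw [Pi.sub_apply, Pi.sub_apply, Pi.smul_apply, nsmul_eq_mul, hZ]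
      ring
    obtain ⟨g0, gv⟩ := (M.v o).eq_of_sub (h := g) (mul_ne_zero (pow_ne_zero n σ0) u0) a1 (by
      have := neg_mem e
      rwa [neg_sub, sub_eq_neg_add 1] at this)
    have := ((BW.oc_v (D.e o) P g).1 (hP.1 g hg _ (BW.ov_v _))).resolve_left g0
    rw [hv] at this
    omega
  obtain ⟨Φ, hΦ⟩ : ∃ Φ : W.J → ℤ, Φ = D.pb V - P - D.pb Z := ⟨_, rfl⟩
  have Φ0 : Φ (D.e o) = 0 := by
    rw [hΦ, Pi.sub_apply, Pi.sub_apply, DC.pb_e, DC.pb_e, s2, hZ]; simp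
  have s3 : ∀ V', Ov V' → V' ≤ (M.v o).O → W.Gen V' (n • D.pb c - Φ) (σ ^ n) := fun V' a b => by
    have := RMn.gen_pow BW hW (DC.bpf o _ U hU) hP (s := σ ^ n) (by rwa [hv, s2])
      (by rwa [hv, s2]) a (hv ▸ b)
    rwa [D.pb_sub, D.pb_sub, D.pb_nsmul, show P - (D.pb V - n • D.pb c - D.pb Z) =
      n • D.pb c - Φ by rw [hΦ]; abel] at this
  have s4 : ∀ V', Ov V' → V' ≤ (M.v o).O → ∀ i, W.Thru V' i → ∃ e : ℤ, 0 ≤ e ∧ Φ i = n * e := by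
    intro V' a b i hi
    by_cases hio : i = D.e o
    · exact ⟨0, le_rfl, by rw [hio, Φ0, mul_zero]⟩
    obtain ⟨V'', hV, -⟩ := hCe N f W hW (D.e o) i V' a (BW.thru_le V' _ a (hv ▸ b)) hi hio
    exact RMn.dvd_cv BW CW hW ((DC.R o c).ge hσ) σ0 (by rw [hv, DC.pb_e, σv]) Φ0 hV
      (s3 V'' hV.2.1 (hv ▸ hV.2.2.1))
  have n0 : (n : ℤ) ≠ 0 := by omega
  obtain ⟨e, he⟩ : ∃ e : W.J → ℤ, ∀ i, e i =
      if ∃ V', Ov V' ∧ V' ≤ (M.v o).O ∧ W.Thru V' i then Φ i / n else 0 := ⟨_, fun _ => rfl⟩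
  have s5 : ∀ V', Ov V' → V' ≤ (M.v o).O → ∀ i, W.Thru V' i → n * e i = Φ i := by
    intro V' a b i hi
    obtain ⟨e', -, h⟩ := s4 V' a b i hi
    rw [he, if_pos ⟨V', a, b, hi⟩, h, Int.mul_ediv_cancel_left _ n0]
  refine ⟨s1, s2, e, fun i => ?_, by rw [he, Φ0]; simp, fun V' a b => ⟨?_, fun i hi => ?_⟩⟩
  · show 0 ≤ e i
    rw [he]
    split_ifs with h
    · obtain ⟨V', a, b, hi⟩ := h
      obtain ⟨e', h0, h⟩ := s4 V' a b i hi
      rwa [h, Int.mul_ediv_cancel_left _ n0]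
    · exact le_rfl
  · refine BW.gen_root V' _ σ n hn (BW.gen_congr V' _ _ _ (fun j hj => ?_) (s3 V' a b))
    rw [Pi.sub_apply, Pi.smul_apply, Pi.smul_apply, Pi.sub_apply, nsmul_eq_mul, nsmul_eq_mul,
      mul_sub, s5 V' a b j hj]
  · rw [s5 V' a b i hi, hΦ]; rfl

end Pool.Agent.MP_ee8c61_ag.N3.M3E
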