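import Pool.Agent.MP_ee8c61_ag.N3E.Spec

/-! Factors of monomials are monomials. -/

namespace Pool.Agent.MP_ee8c61_ag.N3.M3E

open Pool.Agent.MP_ee8c61_ag.M3

set_option linter.unusedSectionVars false

variable [Base]

open H59 M3

namespace RMono

variable {N : ℕ} {f : Po N} {M : Mod N} {b : M.ι} {V : Vl N} {g : KK N}

theorem one (h : M.OK f) {j : M.J} (hj : (M.η b j)⁻¹ ∉ M.S.A b) (hg : g ∈ M.S.A b) (h0 : g ≠ 0)
    (k : ℕ) (hk : (k : ℤ) ≤ (M.v j).v g) : g * M.η b j ^ (-(k : ℤ)) ∈ M.S.A b := by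
  obtain ⟨-, h1, h2⟩ := h.dv b j hj
  induction k with
  | zero => simpa using hg
  | succ k ih =>
    push_cast at hk ⊢
    have := h2 _ (ih (by omega)) (Or.inr (by
      rw [(M.v j).mul _ _ h0 (zpow_ne_zero _ (M.η_ne b j)), DV.zpow, h1]
      omega))
    rwa [mul_assoc, ← zpow_sub_one₀ (M.η_ne b j), ← neg_add'] at this

theorem all (h : M.OK f) (B : Bas1 M) (hV : M.In b V) (hg : g ∈ M.S.A b) (h0 : g ≠ 0)
    (s : Finset M.J) (hs : ∀ j ∈ s, M.Thru V j) :
    g * M.mon b (fun j => if j ∈ s then -(M.v j).v g else 0) ∈ M.S.A b := by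
  induction s using Finset.induction_on with
  | empty =>
    have e : (fun j => if j ∈ (∅ : Finset M.J) then -(M.v j).v g else 0) = 0 := by
      funext j
      simp
    rwa [e, B.mon_zero, mul_one]
  | insert i s hi ih =>
    have h1 := ih fun j hj => hs j (Finset.mem_insert_of_mem hj)
    obtain ⟨k1, k2, -⟩ := B.in_v b V i hV (hs i (Finset.mem_insert_self _ _))
    obtain ⟨k, hk⟩ := Int.eq_ofNat_of_zero_le ((k1 g hg).resolve_left h0)
    have e : (fun j => if j ∈ insert i s then -(M.v j).v g else 0) =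
        (fun j => if j ∈ s then -(M.v j).v g else 0) + (-(k : ℤ)) • M.e i := by
      funext j
      by_cases hj : j = i
      · subst hj
        simp [hi, hk, Mod.e_apply]
      · simp [hj, Mod.e_apply]
    rw [e, B.mon_add, B.mon_e, ← mul_assoc]
    refine one h k2 h1 (mul_ne_zero h0 (M.mon_ne _ _)) k ?_
    rw [(M.v i).mul _ _ h0 (M.mon_ne _ _), B.v_mon b i _ k1, if_neg hi, hk, add_zero]

open Classical in
theorem loc (h : M.OK f) (B : Bas1 M) (hV : M.In b V) (hg : Lc (M.S.A b) V g) (h0 : g ≠ 0) :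
    g * M.mon b (fun j => if M.Thru V j then -(M.v j).v g else 0) ∈ V := by
  obtain ⟨s, h1, h2, h3⟩ := hg
  have h4 := hV _ (all h B hV h3 (mul_ne_zero h2.1 h0) (Finset.univ.filter (M.Thru V))
    fun j hj => (Finset.mem_filter.1 hj).2)
  have e : (fun j => if j ∈ Finset.univ.filter (M.Thru V) then -(M.v j).v (s * g) else 0) =
      fun j => if M.Thru V j then -(M.v j).v g else 0 := by
    funext j
    by_cases hj : M.Thru V j
    · rw [if_pos hj, if_pos (Finset.mem_filter.2 ⟨Finset.mem_univ _, hj⟩),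
        (M.v j).mul _ _ h2.1 h0, (B.in_v b V j hV hj).2.2.2 s h1 h2, zero_add]
    · rw [if_neg hj, if_neg fun a => hj (Finset.mem_filter.1 a).2]
  rw [e, mul_assoc, mul_comm] at h4
  exact h2.mem_iff.1 h4

end RMono

open RMono in
theorem rowMono : OfMono := by
  classical
  intro hB N f M hM b V g h c hV hg hh e
  have B := hB N f M hM
  have h0 : g * h ≠ 0 := e ▸ M.mon_ne b c
  have g0 := left_ne_zero_of_mul h0
  have g1 := right_ne_zero_of_mul h0
  have h1 := loc hM B.toBas1 hV hg g0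
  have h2 := loc hM B.toBas1 hV hh g1
  refine B.gen_congr V _ _ g (fun j hj => if_pos hj)
    ((B.gen_iff b V _ g hV).2 (Un.of_mul ?_ h1 h2))
  rw [mul_mul_mul_comm, e, ← B.mon_add, ← B.mon_add]
  refine B.un_of b V _ hV fun j hj => ?_
  have h3 := B.v_mon b j c (B.in_v b V j hV hj).1
  rw [← e, (M.v j).mul _ _ g0 g1] at h3
  simp only [Pi.add_apply, if_pos hj]
  omega

end Pool.Agent.MP_ee8c61_ag.N3.M3E
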