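import Pool.Agent.MP_ee8c61_ag.N3E.Spec

/-!
Localizations of charts are intersections of valuation rings.
-/

set_option autoImplicit false

namespace Pool.Agent.MP_ee8c61_ag.N3.M3E

open Pool.Agent.MP_ee8c61_ag.M3

set_option linter.unusedSectionVars false

variable [Base]

open H59 M3

namespace RNb

section Field

variable {K : Type} [Field K]

theorem un_iff_isUnit {V : ValuationSubring K} (x : V.toSubring) : Un V (x : K) ↔ IsUnit x := by
  constructor
  · rintro ⟨h0, -, h2⟩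
    exact isUnit_iff_exists_inv.2 ⟨⟨(x : K)⁻¹, h2⟩, Subtype.ext (mul_inv_cancel₀ h0)⟩
  · intro h
    obtain ⟨y, hy⟩ := isUnit_iff_exists_inv.1 h
    have h1 : (x : K) * y = 1 := congrArg Subtype.val hy
    refine ⟨left_ne_zero_of_mul_eq_one h1, x.2, ?_⟩
    rw [← eq_inv_of_mul_eq_one_right h1]
    exact y.2

/-- Every prime ideal is the centre of a valuation ring. -/
theorem exists_centre (A : Subring K) (P : Ideal A) [P.IsPrime] :
    ∃ V : ValuationSubring K, (∀ g ∈ A, g ∈ V) ∧ ∀ g : A, g ∈ P ↔ ¬Un V g := by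
  obtain ⟨V, h1, h2⟩ := (LocalSubring.ofPrime A P).exists_le_valuationSubring
  refine ⟨V, fun g hg => h1 (LocalSubring.le_ofPrime A P hg), fun g => ?_⟩
  have h3 := IsLocalization.AtPrime.isUnit_to_map_iff (LocalSubring.ofPrime A P).toSubring P g
  have h4 : Un V (g : K) ↔
      IsUnit (Subring.inclusion h1 (algebraMap A (LocalSubring.ofPrime A P).toSubring g)) :=
    un_iff_isUnit (V := V)
      (Subring.inclusion h1 (algebraMap A (LocalSubring.ofPrime A P).toSubring g))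
  rw [h4]
  constructor
  · exact fun hg hu => (h3.1 (h2.map_nonunit _ hu)) hg
  · exact fun hu => by_contra fun hg => hu ((h3.2 hg).map _)

variable [Algebra ℂ K]

theorem int_of (B : Subalgebra ℂ K) {g : K}
    (h : ∀ V : ValuationSubring K, (∀ t ∈ B, t ∈ V) → g ∈ V) : IsIntegral B g := by
  have e := iInf_valuationSubring_superset (s := (B.toSubring : Set K))
  rw [Subring.closure_eq] at e
  have : g ∈ (integralClosure B.toSubring K).toSubring :=
    e ▸ Subring.mem_iInf.2 fun V => h V.1 V.2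
  exact this

/-- A localization of a normal ring is an intersection of valuation rings. -/
theorem mem_of_val {A B : Subalgebra ℂ K} [IsIntegrallyClosed A]
    (hK : ∀ x : K, ∃ s ∈ A, s ≠ 0 ∧ s * x ∈ A) (hAB : A ≤ B)
    (hB : ∀ g ∈ B, ∃ u ∈ A, u ≠ 0 ∧ u⁻¹ ∈ B ∧ u * g ∈ A) {g : K}
    (hg : ∀ V : ValuationSubring K, (∀ h ∈ B, h ∈ V) → g ∈ V) : g ∈ B := by
  let _ := (Subalgebra.inclusion hAB).toRingHom.toAlgebra
  let S : Submonoid A :=
    { carrier := {u | (u : K) ≠ 0 ∧ (u : K)⁻¹ ∈ B}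
      mul_mem' := fun {a b} ha hb => ⟨mul_ne_zero ha.1 hb.1, by
        show ((a : K) * b)⁻¹ ∈ B
        rw [mul_inv]
        exact mul_mem ha.2 hb.2⟩
      one_mem' := ⟨one_ne_zero, by
        show (1 : K)⁻¹ ∈ B
        rw [inv_one]
        exact one_mem _⟩ }
  have : IsLocalization S B := by
    refine (isLocalization_iff S B).2 ⟨fun y => ?_, fun z => ?_, fun {x y} h => ⟨1, ?_⟩⟩
    · exact IsUnit.of_mul_eq_one ⟨(y.1 : K)⁻¹, y.2.2⟩ (Subtype.ext (mul_inv_cancel₀ y.2.1))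
    · obtain ⟨u, h1, h2, h3, h4⟩ := hB z z.2
      refine ⟨(⟨_, h4⟩, ⟨⟨u, h1⟩, h2, h3⟩), Subtype.ext ?_⟩
      show (z : K) * u = u * z
      rw [mul_comm]
    · have : x = y := Subtype.ext (congrArg (fun w : B => (w : K)) h)
      rw [this]
  have : IsIntegrallyClosed B := isIntegrallyClosed_of_isLocalization B S fun u hu =>
    mem_nonZeroDivisors_of_ne_zero fun h0 => hu.1 (congrArg Subtype.val h0)
  have : IsFractionRing B K := by
    refine IsFractionRing.of_field B K fun x => ?_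
    obtain ⟨s, h1, h2, h3⟩ := hK x
    exact ⟨⟨_, hAB h3⟩, ⟨s, hAB h1⟩, by
      show x = s * x / s
      rw [mul_div_cancel_left₀ _ h2]⟩
  obtain ⟨y, hy⟩ := IsIntegrallyClosed.isIntegral_iff.1 (int_of B hg)
  exact hy ▸ y.2

/-- The elements whose denominator is a power of `t`. -/
def pw (A : Subalgebra ℂ K) (t : K) (ht : t ∈ A) : Subalgebra ℂ K where
  carrier := {g | ∃ e : ℕ, t ^ e * g ∈ A}
  mul_mem' := by
    rintro a b ⟨e, he⟩ ⟨e', he'⟩
    exact ⟨e + e', by rw [pow_add, mul_mul_mul_comm]; exact mul_mem he he'⟩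
  add_mem' := by
    rintro a b ⟨e, he⟩ ⟨e', he'⟩
    refine ⟨e + e', ?_⟩
    have : t ^ (e + e') * (a + b) = t ^ e' * (t ^ e * a) + t ^ e * (t ^ e' * b) := by ring
    rw [this]
    exact add_mem (mul_mem (pow_mem ht _) he) (mul_mem (pow_mem ht _) he')
  algebraMap_mem' := fun c => ⟨0, by simp⟩

theorem mem_pw {A : Subalgebra ℂ K} {t g : K} (ht : t ∈ A) :
    g ∈ pw A t ht ↔ ∃ e : ℕ, t ^ e * g ∈ A := Iff.rfl

end Field

variable {N : ℕ} {f : Po N} {M : Mod N}

theorem frac (h : M.OK f) (b : M.ι) (x : KK N) : ∃ s ∈ M.S.A b, s ≠ 0 ∧ s * x ∈ M.S.A b := by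
  obtain ⟨q, p, hp, rfl⟩ := IsFractionRing.div_surjective (A := Po N) x
  have h0 : ip N p ≠ 0 := IsFractionRing.to_map_ne_zero_of_mem_nonZeroDivisors hp
  have e : ip N p * (algebraMap (Po N) (KK N) q / algebraMap (Po N) (KK N) p) = ip N q :=
    mul_div_cancel₀ _ h0
  exact ⟨_, h.pol b p, h0, by rw [e]; exact h.pol b q⟩

theorem loc (hN : SNrm) (h : M.OK f) (b : M.ι) (B : Subalgebra ℂ (KK N)) (hAB : M.S.A b ≤ B)
    (hB : ∀ g ∈ B, ∃ u ∈ M.S.A b, u ≠ 0 ∧ u⁻¹ ∈ B ∧ u * g ∈ M.S.A b) (g : KK N)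
    (hg : ∀ V : Vl N, (∀ h ∈ B, h ∈ V) → g ∈ V) : g ∈ B := by
  have : IsIntegrallyClosed (M.S.A b) := hN (M3.Po N) (M.S.A b) (M.S.zh b).toRingHom (h.et b)
  exact mem_of_val (frac h b) hAB hB hg

theorem ch (hN : SNrm) (h : M.OK f) (b : M.ι) (g : KK N) (hg : ∀ V, M.In b V → g ∈ V) :
    g ∈ M.S.A b :=
  loc hN h b _ le_rfl (fun g hg => ⟨1, one_mem _, one_ne_zero, by rw [inv_one]; exact one_mem _,
    by rwa [one_mul]⟩) g hg

theorem noeth (h : M.OK f) (b : M.ι) : IsNoetherianRing (M.S.A b) := by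
  have : Algebra.FiniteType ℂ (M.S.A b) := by
    rw [← RingHom.finiteType_algebraMap, ← (M.S.zh b).comp_algebraMap]
    exact RingHom.FiniteType.comp (RingHom.FiniteType.of_finitePresentation
      (RingHom.Etale.iff_flat_and_formallyUnramified.1 (h.et b)).2.2)
      (RingHom.finiteType_algebraMap.2 inferInstance)
  exact Algebra.FiniteType.isNoetherianRing ℂ _

end RNb

open RNb in
theorem rowNb : OfNb := by
  intro hN _ N f M h
  refine ⟨loc hN h, ch hN h, fun b t ht h0 g hg => ?_, fun b V g _ hg => ?_, fun c g => ?_,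
    noeth h, fun b P hP => ?_⟩
  · have hA : M.S.A b ≤ pw (M.S.A b) t ht := fun x hx => ⟨0, by rwa [pow_zero, one_mul]⟩
    refine (mem_pw ht).1 (loc hN h b _ hA (fun x ⟨e, he⟩ => ⟨t ^ e, pow_mem ht e,
      pow_ne_zero e h0, ⟨e, ?_⟩, he⟩) g fun V hV => hg V (fun x hx => hV x (hA hx))
        (hV _ ⟨1, ?_⟩))
    · rw [mul_inv_cancel₀ (pow_ne_zero e h0)]
      exact one_mem _
    · rw [pow_one, mul_inv_cancel₀ h0]
      exact one_mem _
  · exact mem_LA.1 (loc hN h b _ le_LA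
      (fun x ⟨s, h1, h2, h3⟩ => ⟨s, h1, h2.1, (Lc.of_mem h1).inv h2, h3⟩) g
      fun V' hV => hg V' (fun x hx => hV x (le_LA hx))
        fun s h1 h2 => ⟨h2.1, hV s (le_LA h1), hV _ ((Lc.of_mem h1).inv h2)⟩)
  · exact ⟨fun hg b => ch hN h b _ fun V hV => hg V (fun p => hV _ (h.pol b p)) b hV,
      fun hg V _ b hV => hV _ (hg b)⟩
  · exact @exists_centre _ _ _ (M.S.A b).toSubring P hP

end Pool.Agent.MP_ee8c61_ag.N3.M3E
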