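import Pool.Agent.MP_ee8c61_ag.N3E.Spec
import Pool.Agent.MP_ee8c61_ag.N3L.Loc

/-!
Normality of the charts and the system of charts of an ample cover.
-/

namespace Pool.Agent.MP_ee8c61_ag.N3.M3E

open Pool.Agent.MP_ee8c61_ag.M3

set_option linter.unusedSectionVars false

variable [Base]

open H59 M3

theorem rowNrm : SNrm := fun P A _ _ _ _ _ φ hφ => by
  let _ := φ.toAlgebra
  have : Algebra.Etale P A := hφ
  exact M3L.normal_of_etale P A

theorem rowRef : OfRef := fun _ _ _ _ _ _ h _ _ _ _ _ _ hA =>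
  ⟨M3L.LS hA, M3L.ru hA, rfl, fun _ => rfl, fun _ => rfl, fun _ => rfl, M3L.LS_et h hA,
    M3L.LS_Pol h hA _ (fun l => ⟨xp _ l, rfl⟩) fun l => ⟨l, rfl⟩, fun _ => rfl⟩

end Pool.Agent.MP_ee8c61_ag.N3.M3E
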