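import Pool.Agent.MP_ee8c61_ag.N3E.Spec

/-! The divisors of a model are normal. -/

namespace Pool.Agent.MP_ee8c61_ag.N3.M3E

open Pool.Agent.MP_ee8c61_ag.M3

set_option linter.unusedSectionVars false

variable [Base]

open H59 M3

namespace RNs

open MvPolynomial

/-- The map that kills one variable. -/
noncomputable def kill {n : ℕ} (l : Fin n) : M3.Po n →ₐ[ℂ] MvPolynomial {i // i ≠ l} ℂ :=
  aeval fun i => if h : i = l then 0 else X ⟨i, h⟩

theorem kill_rename {n : ℕ} (l : Fin n) (p : MvPolynomial {i // i ≠ l} ℂ) :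
    kill l (rename Subtype.val p) = p := by
  have : (kill l).comp (rename Subtype.val) = AlgHom.id ℂ _ :=
    algHom_ext fun i => by simp [kill, i.2]
  exact AlgHom.congr_fun this p

theorem sub_kill {n : ℕ} (l : Fin n) (p : M3.Po n) :
    p - rename Subtype.val (kill l p) ∈ Ideal.span {(X l : M3.Po n)} := by
  induction p using MvPolynomial.induction_on with
  | C a => simp [kill]
  | add p r hp hr =>
    rw [map_add, map_add, add_sub_add_comm]
    exact add_mem hp hr
  | mul_X p i hp =>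
    rw [map_mul, map_mul]
    by_cases h : i = l
    · have e : kill l (X i) = 0 := by simp [kill, h]
      rw [e, map_zero, mul_zero, sub_zero, h]
      exact Ideal.mul_mem_left _ _ (Ideal.subset_span rfl)
    · have e : kill l (X i) = X ⟨i, h⟩ := by simp [kill, h]
      rw [e, rename_X, ← sub_mul]
      exact Ideal.mul_mem_right _ _ hp

theorem ker_kill {n : ℕ} (l : Fin n) :
    RingHom.ker (kill l).toRingHom = Ideal.span {(X l : M3.Po n)} := by
  refine le_antisymm (fun p hp => ?_) (Ideal.span_le.2 ?_)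
  · have h1 := sub_kill l p
    have h2 : kill l p = 0 := hp
    rwa [h2, map_zero, sub_zero] at h1
  · rintro _ rfl
    simp [kill, RingHom.mem_ker]

/-- A coordinate hyperplane is an affine space. -/
noncomputable def eqv {n : ℕ} (l : Fin n) :
    (M3.Po n ⧸ Ideal.span {(X l : M3.Po n)}) ≃+* MvPolynomial {i // i ≠ l} ℂ :=
  (Ideal.quotEquivOfEq (ker_kill l).symm).trans
    (RingHom.quotientKerEquivOfSurjective fun p => ⟨_, kill_rename l p⟩)

theorem quotN (hN : SNrm) {A : Type} [CommRing A] [Algebra ℂ A] {n : ℕ} (z : Fin n → A)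
    (het : (aeval (R := ℂ) z).toRingHom.Etale) (l : Fin n) (Q : Ideal A) [Q.IsPrime]
    (hQ : Q = Ideal.span {z l}) : IsIntegrallyClosed (A ⧸ Q) := by
  let : Algebra (M3.Po n) A := (aeval (R := ℂ) z).toRingHom.toAlgebra
  have : Algebra.Etale (M3.Po n) A := het
  have hz : algebraMap (M3.Po n) A (X l) = z l := aeval_X z l
  have e : Q = (Ideal.span {(X l : M3.Po n)}).map (algebraMap (M3.Po n) A) := by
    rw [Ideal.map_span, Set.image_singleton, hz, hQ]
  subst e
  have : IsDomain (M3.Po n ⧸ Ideal.span {(X l : M3.Po n)}) := (eqv l).toMulEquiv.isDomain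
  have : IsIntegrallyClosed (M3.Po n ⧸ Ideal.span {(X l : M3.Po n)}) :=
    IsIntegrallyClosed.of_equiv (eqv l).symm
  have h1 : Algebra.Etale (M3.Po n ⧸ Ideal.span {(X l : M3.Po n)})
      (A ⧸ (Ideal.span {(X l : M3.Po n)}).map (algebraMap (M3.Po n) A)) :=
    Algebra.Etale.of_equiv
      (Algebra.TensorProduct.quotIdealMapEquivQuotTensor A (Ideal.span {(X l : M3.Po n)})).symm
  exact hN _ _ (algebraMap (M3.Po n ⧸ Ideal.span {(X l : M3.Po n)}) _)
    (RingHom.etale_algebraMap.2 h1)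

theorem away {B L : Type} [CommRing B] [IsDomain B] [IsIntegrallyClosed B] [Field L]
    [Algebra B L] [IsFractionRing B L] (t : B) (ht : t ≠ 0) (x : L)
    (hx : ∀ W : ValuationSubring L, (∀ b, algebraMap B L b ∈ W) → (algebraMap B L t)⁻¹ ∈ W →
      x ∈ W) : ∃ (e : ℕ) (b : B), x = algebraMap B L b * (algebraMap B L t ^ e)⁻¹ := by
  have hS : Submonoid.powers t ≤ nonZeroDivisors B := powers_le_nonZeroDivisors_of_noZeroDivisors ht
  let S := Localization.subalgebra.ofField L (Submonoid.powers t) hS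
  have : IsIntegrallyClosed S := isIntegrallyClosed_of_isLocalization S (Submonoid.powers t) hS
  have : IsIntegrallyClosedIn S L := (isIntegrallyClosed_iff_isIntegrallyClosedIn L).1 inferInstance
  have : IsIntegrallyClosedIn S.toSubring L := ‹IsIntegrallyClosedIn S L›
  have h : x ∈ S.toSubring := by
    by_contra h
    obtain ⟨W, h1, h2⟩ := Subring.exists_le_valuationSubring_of_isIntegrallyClosedIn h
    refine h2 (hx W (fun b => h1 (S.algebraMap_mem b)) (h1 ?_))
    exact ⟨1, t, Submonoid.mem_powers t, by simp⟩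
  obtain ⟨a, _, ⟨e, rfl⟩, h⟩ := h
  exact ⟨e, a, by simpa using h⟩

open IsLocalRing

variable {K : Type} [Field K]

theorem res_zero {O : ValuationSubring K} (x : O) : residue O x = 0 ↔ ¬Un O (x : K) := by
  rw [residue_eq_zero_iff, ValuationSubring.valuation_lt_one_iff, not_un_iff x.2]

theorem res_inv {O : ValuationSubring K} {x : K} (h : Un O x) :
    residue O ⟨x⁻¹, h.2.2⟩ = (residue O ⟨x, h.2.1⟩)⁻¹ := by
  refine eq_inv_of_mul_eq_one_left ?_
  rw [← map_mul, ← map_one (residue O)]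
  exact congrArg _ (Subtype.ext (inv_mul_cancel₀ h.1))

/-- The composite of a valuation ring with a valuation ring of its residue field. -/
def cmp (O : ValuationSubring K) (W : ValuationSubring (ResidueField O)) : ValuationSubring K where
  carrier := {x | ∃ h : x ∈ O, residue O ⟨x, h⟩ ∈ W}
  mul_mem' := fun ⟨a, ha⟩ ⟨b, hb⟩ => ⟨mul_mem a b, by
    have := mul_mem ha hb
    rwa [← map_mul] at this⟩
  one_mem' := ⟨one_mem _, by
    have := one_mem W
    rwa [← map_one (residue O)] at this⟩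
  add_mem' := fun ⟨a, ha⟩ ⟨b, hb⟩ => ⟨add_mem a b, by
    have := add_mem ha hb
    rwa [← map_add] at this⟩
  zero_mem' := ⟨zero_mem _, by
    have := zero_mem W
    rwa [← map_zero (residue O)] at this⟩
  neg_mem' := fun ⟨a, ha⟩ => ⟨neg_mem a, by
    have := neg_mem ha
    rwa [← map_neg] at this⟩
  mem_or_inv_mem' := fun x => by
    by_cases h : Un O x
    · exact (W.mem_or_inv_mem (residue O ⟨x, h.2.1⟩)).imp (fun a => ⟨h.2.1, a⟩)
        fun a => ⟨h.2.2, by rwa [res_inv h]⟩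
    · rcases O.mem_or_inv_mem x with a | a
      · exact Or.inl ⟨a, by rw [(res_zero ⟨x, a⟩).2 h]; exact zero_mem W⟩
      · refine Or.inr ⟨a, ?_⟩
        rw [(res_zero ⟨x⁻¹, a⟩).2 fun b => h (by simpa using b.inv)]
        exact zero_mem W

theorem main [Algebra ℂ K] (hN : SNrm) (A : Subalgebra ℂ K) {n : ℕ} (z : Fin n → A)
    (het : (aeval (R := ℂ) z).toRingHom.Etale) (l : Fin n) (O : ValuationSubring K)
    (hA : ∀ g ∈ A, g ∈ O) (hz : ¬Un O (z l : K))
    (hd : ∀ g ∈ A, ¬Un O g → ∃ h ∈ A, g = h * z l) (hf : ∀ g ∈ O, Lc A O g)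
    (t : K) (ht : t ∈ A) (hu : Un O t) (s : K)
    (hs : ∀ V : ValuationSubring K, (∀ g ∈ A, g ∈ V) → t⁻¹ ∈ V → V ≤ O → s ∈ V) :
    ∃ (e : ℕ) (g : K), g ∈ A ∧ s - g / t ^ e ∈ O ∧ ¬Un O (s - g / t ^ e) := by
  let ι : A →+* O := (A.toSubring.subtype).codRestrict O fun g => hA g g.2
  let φ : A →+* ResidueField O := (residue O).comp ι
  have hφ : ∀ g : A, φ g = residue O ⟨g, hA g g.2⟩ := fun _ => rfl
  have : (RingHom.ker φ).IsPrime := RingHom.ker_isPrime φ
  have hQ : RingHom.ker φ = Ideal.span {z l} := by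
    refine le_antisymm (fun g hg => ?_) (Ideal.span_le.2 ?_)
    · obtain ⟨h, a, b⟩ := hd g g.2 ((res_zero (O := O) ⟨g, hA g g.2⟩).1 hg)
      exact Ideal.mem_span_singleton'.2 ⟨⟨h, a⟩, Subtype.ext b.symm⟩
    · rintro _ rfl
      exact (res_zero (O := O) ⟨z l, hA _ (z l).2⟩).2 hz
  have := quotN hN z het l _ hQ
  let : Algebra (A ⧸ RingHom.ker φ) (ResidueField O) := (RingHom.kerLift φ).toAlgebra
  have ha : ∀ g : A, algebraMap (A ⧸ RingHom.ker φ) (ResidueField O) (Ideal.Quotient.mk _ g) =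
      residue O ⟨g, hA g g.2⟩ := fun g => RingHom.kerLift_mk φ g
  have : FaithfulSMul (A ⧸ RingHom.ker φ) (ResidueField O) :=
    (faithfulSMul_iff_algebraMap_injective _ _).2 (RingHom.kerLift_injective φ)
  have : IsFractionRing (A ⧸ RingHom.ker φ) (ResidueField O) :=
    IsFractionRing.of_field _ _ fun y => by
      obtain ⟨g, rfl⟩ := residue_surjective y
      obtain ⟨u, a, b, c⟩ := hf g g.2
      refine ⟨Ideal.Quotient.mk _ ⟨_, c⟩, Ideal.Quotient.mk _ ⟨u, a⟩, ?_⟩
      rw [ha, ha, eq_div_iff fun e => (res_zero _).1 e b, ← map_mul]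
      exact congrArg _ (Subtype.ext (mul_comm _ _))
  have hsO : s ∈ O := hs O hA hu.2.2 le_rfl
  obtain ⟨e, b, hb⟩ := away (L := ResidueField O) (Ideal.Quotient.mk (RingHom.ker φ) ⟨t, ht⟩)
    (fun e => (res_zero ⟨t, hu.2.1⟩).1 (Ideal.Quotient.eq_zero_iff_mem.1 e) hu)
    (residue O ⟨s, hsO⟩) fun W h1 h2 => by
      obtain ⟨_, h⟩ := hs (cmp O W) (fun g hg => ⟨hA g hg, ha ⟨g, hg⟩ ▸ h1 _⟩)
        ⟨hu.2.2, by rw [res_inv hu, ← ha ⟨t, ht⟩]; exact h2⟩ fun _ h => h.1
      exact h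
  obtain ⟨g, rfl⟩ := Ideal.Quotient.mk_surjective b
  have hg : (g : K) / t ^ e ∈ O := by
    rw [div_eq_mul_inv]
    exact mul_mem (hA g g.2) (hu.pow e).2.2
  refine ⟨e, g, g.2, sub_mem hsO hg, (res_zero ⟨_, sub_mem hsO hg⟩).1 ?_⟩
  have e1 : (⟨s - g / t ^ e, sub_mem hsO hg⟩ : O) =
      ⟨s, hsO⟩ - ⟨g, hA g g.2⟩ * ⟨t⁻¹, hu.2.2⟩ ^ e :=
    Subtype.ext (by simp [div_eq_mul_inv])
  rw [e1, map_sub, map_mul, map_pow, res_inv hu, hb, ha, ha, inv_pow, sub_self]

theorem not_un (d : DV K) {g : K} (hg : g ∈ d.O) : ¬Un d.O g ↔ g ∈ d.F 1 := by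
  rw [d.un_O, d.mem_F]
  have := d.mem_F.1 (d.mem_O.1 hg)
  by_cases h : g = 0
  · simp [h]
  · have := this.resolve_left h
    simp only [ne_eq, h, not_false_eq_true, true_and, false_or]
    omega

end RNs

theorem rowNs : OfNs := by
  intro hN hB N f M hM b o t ht hb hu s hs
  have B := hB N f M hM
  obtain ⟨-, h1, ⟨l, hl⟩, -⟩ := B.in_v b _ o hb ((B.thru_v o o).2 rfl)
  obtain ⟨-, h2, h3⟩ := hM.dv b o h1
  have hη : M.η b o = M.S.z b l := M.S.η_some b o l hl
  obtain ⟨e, g, a, c, d⟩ := RNs.main hN (M.S.A b) (fun i => ⟨M.S.z b i, M.S.z_mem b i⟩) (hM.et b) l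
    (M.v o).O hb
    (fun h => by
      have : (M.v o).v (M.S.z b l) = 0 := ((M.v o).un_O.1 h).2
      rw [← hη, h2] at this
      exact one_ne_zero this)
    (fun g hg h => ⟨_, h3 g hg ((RNs.not_un _ (hb g hg)).1 h), by
      change g = g * _ * M.S.z b l
      rw [← hη, inv_mul_cancel_right₀ (M.η_ne b o)]⟩)
    (B.frac b o hb) t ht hu s hs
  exact ⟨e, g, a, (RNs.not_un _ c).1 d⟩

end Pool.Agent.MP_ee8c61_ag.N3.M3E
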