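import Pool.Agent.MP_ee8c61_ag.N3E.Spec

/-! Lifting of the powers of a section, up to a fixed ample twist. -/

namespace Pool.Agent.MP_ee8c61_ag.N3.M3E

open Pool.Agent.MP_ee8c61_ag.M3

set_option linter.unusedSectionVars false

variable [Base]

open H59 M3 Finset

namespace RT

theorem exists_eps {J : Type} [Fintype J] (a : J → ℚ) (ha : ∀ j, 0 ≤ a j) :
    ∃ ε : ℚ, 0 < ε ∧ ε ≤ 1 ∧ ∀ j, ε * a j < 1 := by
  have hS : 0 ≤ ∑ j, a j := sum_nonneg fun j _ => ha j
  have h1 : 0 < 1 + ∑ j, a j := by linarith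
  refine ⟨(1 + ∑ j, a j)⁻¹, inv_pos.2 h1, inv_le_one_of_one_le₀ (by linarith), fun j => ?_⟩
  have : a j ≤ ∑ j, a j := single_le_sum (fun j _ => ha j) (mem_univ j)
  rw [inv_mul_lt_iff₀ h1]
  linarith

variable {N : ℕ} {f : Po N} {M : Mod N}

/-- One step of the induction. -/
theorem step (hM : M.OK f) (hB : Bas f M) (hq : Aq M) (hL : SL) (o : M.J)
    (P F X Q b : M.J → ℤ) (l : ℕ) (σ : KK N) (hP : M.Free P) (hF : 0 ≤ F) (hFo : F o = 0)
    (hX : M.Amp X) (hQ : M.Free Q) (hb0 : ∀ j, 0 ≤ b j) (hb1 : ∀ j, b j ≤ 1) (hbo : b o = 0)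
    (hFb : ∀ j, F j = 0 ∨ b j = 0) (hσ : σ ∈ M.R o (P + F))
    (hC : ∀ u ∈ M.R o X, M.Lf o (l • (P + F) + X) (σ ^ l * u)) :
    ∀ u ∈ M.R o (X + (M.kk + M.e o) + b + Q),
      M.Lf o (l • (P + F) + (X + (M.kk + M.e o) + b + Q)) (σ ^ l * u) := by
  intro u hu
  obtain ⟨T, hT⟩ := hB.amp_free X hX
  have hU := hB.gens_bpf o X T hT
  obtain ⟨δ0, hδ0, hδ⟩ := hq.opn _ (M.q b) (hq.of_amp X hX)
  have hF' : ∀ j, (0 : ℚ) ≤ F j := fun j => Int.cast_nonneg (hF j)
  obtain ⟨ε, hε0, hε1, hε⟩ := exists_eps (fun j => (l : ℚ) * F j)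
    fun j => mul_nonneg (Nat.cast_nonneg l) (hF' j)
  obtain ⟨δ, hd0, hd1, hd⟩ : ∃ δ : ℚ, 0 < δ ∧ δ ≤ 1 ∧ M.AmpQ (M.q X + δ • M.q b) :=
    ⟨min δ0 1, lt_min hδ0 one_pos, min_le_right _ _,
      hδ _ (lt_min hδ0 one_pos).le (min_le_left _ _)⟩
  have hA : M.AmpQ (ε • (M.q X + δ • M.q b) + (ε * l) • M.q P + M.q Q) :=
    hq.add _ _ (hq.add _ _ (hq.smul _ ε hε0 hd)
      (hq.smul' _ _ (mul_nonneg hε0.le (Nat.cast_nonneg l)) (hq.of_free P hP))) (hq.of_free Q hQ)
  have hεδ : 0 < ε * δ := mul_pos hε0 hd0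
  have hεδ1 : ε * δ ≤ 1 := mul_le_one₀ hε1 hd0.le hd1
  set β : M.J → ℚ := fun j => (1 - ε * δ) * b j + ε * ((l : ℚ) * F j) with hβ
  have hβ0 : ∀ j, 0 ≤ β j := fun j =>
    add_nonneg (mul_nonneg (by linarith) (Int.cast_nonneg (hb0 j)))
      (mul_nonneg hε0.le (mul_nonneg (Nat.cast_nonneg l) (hF' j)))
  have hβ1 : ∀ j, β j < 1 := fun j => by
    rcases hFb j with h | h
    · have h1 : (b j : ℚ) ≤ 1 := by exact_mod_cast hb1 j
      have h2 : (1 - ε * δ) * b j ≤ (1 - ε * δ) * 1 :=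
        mul_le_mul_of_nonneg_left h1 (by linarith)
      simp only [hβ, h, Int.cast_zero, mul_zero, add_zero]
      linarith
    · simpa only [hβ, h, Int.cast_zero, mul_zero, zero_add] using hε j
  have hup : M.up (-β) = 0 := funext fun j => by
    show ⌈-β j⌉ = 0
    rw [Int.ceil_eq_zero_iff]
    exact ⟨by linarith [hβ1 j], by linarith [hβ0 j]⟩
  have key := hL N f M hM o (l • (P + F) + (X + (M.kk + M.e o) + b + Q)) (l • (P + F) + X)
    (l • (P + F)) 0 _ β (1 - ε) 1 (σ ^ l) T rfl hA (by simp [hβ, hbo, hFo]) (by linarith) one_pos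
    (by push_cast; linarith) (fun j => by simpa using hβ1 j)
    (funext fun j => by
      simp only [hβ, Mod.q_apply, Pi.add_apply, Pi.smul_apply, smul_eq_mul, nsmul_eq_mul,
        Pi.mul_apply, Pi.natCast_apply]
      push_cast
      ring)
    (fun V h1 h2 => hB.oc_pow V _ σ l (hσ V h1 h2))
    (by rwa [one_smul, sub_zero, add_sub_cancel_left])
    (fun v hv => by rw [pow_one]; exact hC v (hU.1 v hv)) u (by rwa [add_sub_cancel_left])
  rwa [hup, add_zero] at key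

end RT

theorem rowT : OfT := by
  intro hBas hA1 hAq hL0 hL N f M hM o B n nB nP P F hn hB0 hB1 hBo hnB hnP hP hF hFo hFB hsum
  have hB := hBas N f M hM
  have hq := hAq N f M hM
  obtain ⟨w, hw⟩ := hM.amp
  set κ : M.J → ℤ := M.kk + M.e o with hκ
  let E : ℕ → M.J → ℤ := fun r => r • κ + M.up (r • B)
  let b : ℕ → M.J → ℤ := fun r => M.up ((r + 1) • B) - M.up (r • B)
  have hE : ∀ r, E (r + 1) = E r + κ + b r := fun r => by
    simp only [E, b, add_smul, one_smul]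
    abel
  have hE0 : E 0 = 0 := funext fun j => by simp [E, Mod.up]
  have hEn : E n + nP = P + F := by
    simp only [E]
    rw [← hnB, M.up_q, hsum]
  have hb : ∀ r j, b r j = ⌈((r : ℚ) + 1) * B j⌉ - ⌈(r : ℚ) * B j⌉ := fun r j => by
    simp [b, Mod.up]
  have hb0 : ∀ r j, 0 ≤ b r j := fun r j => by
    rw [hb, sub_nonneg]
    exact Int.ceil_mono (mul_le_mul_of_nonneg_right (by linarith) (hB0 j))
  have hb1 : ∀ r j, b r j ≤ 1 := fun r j => by
    rw [hb, sub_le_iff_le_add', ← Int.ceil_add_one]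
    exact Int.ceil_mono (by linarith [hB1 j])
  have hbz : ∀ r j, B j = 0 → b r j = 0 := fun r j h => by rw [hb, h]; simp
  have hev : ∀ᶠ k : ℕ in Filter.atTop, ∀ r ∈ range n,
      M.Amp (k • w + E r) ∧ M.Amp (k • w + (E r - κ)) :=
    (Filter.eventually_all_finset _).2 fun r _ =>
      (Filter.eventually_atTop.2 (hA1 N f M hM w _ hw)).and
        (Filter.eventually_atTop.2 (hA1 N f M hM w _ hw))
  obtain ⟨k, hk⟩ := hev.exists
  have h0 := (hk 0 (mem_range.2 hn)).1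
  rw [hE0, add_zero] at h0
  obtain ⟨T, hT⟩ := hB.amp_free _ h0
  refine ⟨k • w, T, hB.gens_bpf o _ T hT, fun σ hσ => ?_⟩
  have st := fun (l r : ℕ) (hr : r < n) (Q : M.J → ℤ) (hQ : M.Free Q) =>
    RT.step hM hB hq hL o P F (k • w + E r) Q (b r) l σ hP hF hFo (hk r (mem_range.2 hr)).1 hQ
      (hb0 r) (hb1 r) (hbz r o hBo) (fun j => (hFB j).imp id (hbz r j)) hσ
  have inner : ∀ l : ℕ,
      (∀ u ∈ M.R o (k • w + E 0), M.Lf o (l • (P + F) + (k • w + E 0)) (σ ^ l * u)) →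
      ∀ r, r < n →
        ∀ u ∈ M.R o (k • w + E r), M.Lf o (l • (P + F) + (k • w + E r)) (σ ^ l * u) := by
    intro l hl r
    induction r with
    | zero => exact fun _ => hl
    | succ r ih =>
      intro hr
      have h1 := st l r (by omega) 0 hB.free_zero (ih (by omega))
      have h2 : k • w + E r + (M.kk + M.e o) + b r + 0 = k • w + E (r + 1) := by
        rw [hE, ← hκ]; abel
      rwa [h2] at h1
  have outer : ∀ l : ℕ,
      ∀ u ∈ M.R o (k • w + E 0), M.Lf o (l • (P + F) + (k • w + E 0)) (σ ^ l * u) := by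
    intro l
    induction l with
    | zero =>
      intro u hu
      have h1 := hL0 N f M hM o _ (hq.of_amp _ (hk 0 (mem_range.2 hn)).2) u
      have h2 : M.kk + M.e o + M.up (M.q (k • w + (E 0 - κ))) = k • w + E 0 := by
        rw [M.up_q, ← hκ]; abel
      rw [h2] at h1
      rw [zero_smul, zero_add, pow_zero, one_mul]
      exact h1 hu
    | succ l ih =>
      intro u hu
      obtain ⟨r, rfl⟩ : ∃ r, n = r + 1 := ⟨n - 1, by omega⟩
      have h1 := st l r (by omega) nP hnP (inner l ih r (by omega))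
      have h2 : k • w + E r + (M.kk + M.e o) + b r + nP = (P + F) + (k • w + E 0) := by
        rw [← hEn, hE, hE0, ← hκ]; abel
      rw [h2] at h1
      have h3 := h1 (σ * u) fun V a c => hB.oc_mul V _ _ σ u (hσ V a c) (hu V a c)
      rw [add_smul, one_smul, add_assoc, pow_succ, mul_assoc]
      exact h3
  intro l u hu
  have := outer l u (by rwa [hE0, add_zero])
  rwa [hE0, add_zero] at this

end Pool.Agent.MP_ee8c61_ag.N3.M3E
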