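import Pool.Agent.MP_ee8c61_ag.N3.Kit

/-!
Lifting of sections from a divisor: the statements. Every `OfX` is one task.
-/

namespace Pool.Agent.MP_ee8c61_ag.N3.M3E

open Pool.Agent.MP_ee8c61_ag.M3

variable [Base]

open H59 M3 Finset

noncomputable section

variable {N : ℕ}

/-- A property of all models. -/
def AllM (P : ∀ {N : ℕ} (_ : Po N) (_ : Mod N), Prop) : Prop :=
  ∀ (N : ℕ) (f : Po N) (M : Mod N), M.OK f → P f M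

/-- A property of all dominations. -/
def AllD (P : ∀ {N : ℕ} {W M : Mod N} (_ : Dom W M), Prop) : Prop :=
  ∀ (N : ℕ) (f : Po N) (W M : Mod N) (D : Dom W M), W.OK f → M.OK f → P D

/-- The sum of the divisors other than `o`. -/
def _root_.Pool.Agent.MP_ee8c61_ag.N3.Mod.dd (M : Mod N) (o : M.J) : M.J → ℚ := fun j => if j = o then 0 else 1

/-- The coefficients of the crepant pull-back of the boundary `B`. -/
def _root_.Pool.Agent.MP_ee8c61_ag.N3.Dom.bd {W M : Mod N} (D : Dom W M) (o : M.J) (B : M.J → ℚ) : W.J → ℚ :=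
  D.pb (M.q (M.kk + M.e o) + B) - W.q (W.kk + W.e (D.e o))

/-! ### Inputs from other blocks -/

/-- Vanishing for a system of charts in a field. -/
def SKVF : Prop :=
  ∀ (K ι J : Type) (n m : ℕ) [Field K] [Algebra ℂ K] [Fintype ι] [Nonempty ι] [Fintype J]
    (S : Sys ℂ K ι J n) (x : Fin m → K) (kk w : J → ℤ) (ρ : ι → Kˣ) (μ : ℕ),
    (∀ a, (S.zh a).toRingHom.Etale) → (∀ c l, S.r l ∈ S.A c) →
    (∀ c, ∃ U : Kˣ, S.IsU c U ∧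
      (Matrix.of fun l i => S.D c i (S.r l)).det = ((U * S.mon c kk : Kˣ) : K)) →
    S.Pol x w ρ → 0 < μ → ∀ g : ι → ι → K,
    (∀ a b, g a b * (S.mon a (kk + Sys.cl w μ) : Kˣ) ∈ S.A a ⊔ S.A b) →
    (∀ a b c, g a b + g b c = g a c) →
    ∃ h : ι → K, (∀ a, h a * (S.mon a (kk + Sys.cl w μ) : Kˣ) ∈ S.A a) ∧ ∀ a b, g a b = h a - h b

/-- Existence of models that principalise a finite set of polynomials. -/
def SB1raw : Prop :=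
  ∀ (N : ℕ) (f : Po N) (G : Finset (Po N)), Gd f → (∃ r, f ^ r ∈ G) →
    ∃ W : Mod N, W.OK f ∧ ∃ (c : W.J → ℤ) (T : Finset (KK N)),
      (T : Set (KK N)) = ip N '' G ∧ W.Gens c T

/-! ### Commutative algebra -/

def SNrm : Prop :=
  ∀ (P A : Type) [CommRing P] [IsDomain P] [IsIntegrallyClosed P] [CommRing A] [IsDomain A]
    (φ : P →+* A), φ.Etale → IsIntegrallyClosed A

/-- The maximal ideal at the centre of `V` is generated by polynomials in the coordinates. -/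
def SUnr : Prop :=
  ∀ (K : Type) [Field K] [Algebra ℂ K] (n : ℕ) (A : Subalgebra ℂ K) (z : Fin n → A)
    (V : ValuationSubring K), (MvPolynomial.aeval (R := ℂ) z).toRingHom.Etale →
    (∀ g ∈ A, g ∈ V) → ∀ g ∈ A, ¬Un V g → ∃ s ∈ A, Un V s ∧ ∃ (r : ℕ) (h : Fin r → K)
      (p : Fin r → M3.Po n), (∀ i, h i ∈ A) ∧
      (∀ i, ¬Un V (MvPolynomial.aeval (fun l => (z l : K)) (p i))) ∧
      s * g = ∑ i, h i * MvPolynomial.aeval (fun l => (z l : K)) (p i)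

/-- A minimal prime over two coordinates is locally generated by them. -/
def SGd : Prop :=
  ∀ (A : Type) [CommRing A] [Algebra ℂ A] (n : ℕ) (z : Fin n → A) (l l' : Fin n) (P : Ideal A),
    (MvPolynomial.aeval (R := ℂ) z).toRingHom.Etale → P.IsPrime → z l ∈ P → z l' ∈ P →
    ∃ Q : Ideal A, Q.IsPrime ∧ Q ≤ P ∧ z l ∈ Q ∧ z l' ∈ Q ∧ (∀ i, i ≠ l → i ≠ l' → z i ∉ Q) ∧
      ∀ g ∈ Q, ∃ s, s ∉ Q ∧ s * g ∈ Ideal.span {z l, z l'}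

/-- The order of a Jacobian determinant. -/
def SJac : Prop :=
  ∀ (K : Type) [Field K] [Algebra ℂ K] (n : ℕ) (d : DV K) (D : Fin n → Derivation ℂ K K)
    (l0 : Fin n) (z : Fin n → K) (o : Fin n → ℤ),
    (∀ l m, ∀ g ∈ d.F m, D l g ∈ d.F (m - if l = l0 then 1 else 0)) → (∀ l, z l ∈ d.F (o l)) →
    (Matrix.of fun i l => D i (z l)).det ∈ d.F (∑ l, o l - 1)

/-! ### One model -/

structure Bas1 (M : Mod N) : Prop where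
  ov : ∀ b V, M.In b V → Ov V
  ov_v : ∀ j, Ov (M.v j).O
  η_mem : ∀ b j, M.η b j ∈ M.S.A b
  mon_add : ∀ b c c', M.mon b (c + c') = M.mon b c * M.mon b c'
  mon_zero : ∀ b, M.mon b 0 = 1
  mon_neg : ∀ b c, M.mon b (-c) = (M.mon b c)⁻¹
  mon_nsmul : ∀ b (r : ℕ) c, M.mon b (r • c) = M.mon b c ^ r
  mon_e : ∀ b j (r : ℤ), M.mon b (r • M.e j) = M.η b j ^ r
  mon_mem : ∀ b c, 0 ≤ c → M.mon b c ∈ M.S.A b
  un_η : ∀ a b V j, M.In a V → M.In b V → Un V (M.η a j / M.η b j)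
  un_mon : ∀ a b V c, M.In a V → M.In b V → Un V (M.mon a c / M.mon b c)
  un_of : ∀ b V c, M.In b V → (∀ j, M.Thru V j → c j = 0) → Un V (M.mon b c)
  mem_of : ∀ b V c, M.In b V → (∀ j, M.Thru V j → 0 ≤ c j) → M.mon b c ∈ V
  lc : ∀ a b V, M.In a V → M.In b V → ∀ g ∈ M.S.A a, Lc (M.S.A b) V g
  oc_iff : ∀ b V c g, M.In b V → (M.Oc V c g ↔ g * M.mon b c ∈ V)
  gen_iff : ∀ b V c g, M.In b V → (M.Gen V c g ↔ Un V (g * M.mon b c))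
  thru_iff : ∀ b V j, M.In b V → (M.Thru V j ↔ ¬Un V (M.η b j))
  in_v : ∀ b V j, M.In b V → M.Thru V j → M.In b (M.v j).O ∧ (M.η b j)⁻¹ ∉ M.S.A b ∧
    (∃ l, M.S.lab b j = some l) ∧ ∀ s ∈ M.S.A b, Un V s → (M.v j).v s = 0
  thru_le : ∀ V o, Ov V → V ≤ (M.v o).O → M.Thru V o
  thru_v : ∀ i j, M.Thru (M.v i).O j ↔ j = i
  v_mon : ∀ b j c, M.In b (M.v j).O → (M.v j).v (M.mon b c) = c j
  oc_v : ∀ j c g, M.Oc (M.v j).O c g ↔ g ∈ (M.v j).F (-c j)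
  gen_v : ∀ j c g, M.Gen (M.v j).O c g ↔ g ≠ 0 ∧ (M.v j).v g = -c j
  frac : ∀ b j, M.In b (M.v j).O → ∀ g ∈ (M.v j).O, Lc (M.S.A b) (M.v j).O g
  small : ∀ V o, V ≤ (M.v o).O → ∀ g ∈ (M.v o).F 1, g ∈ V ∧ ¬Un V g

structure Bas (f : Po N) (M : Mod N) : Prop extends Bas1 M where
  oc_add : ∀ V c g h, M.Oc V c g → M.Oc V c h → M.Oc V c (g + h)
  oc_sub : ∀ V c g h, M.Oc V c g → M.Oc V c h → M.Oc V c (g - h)
  oc_mul : ∀ V c c' g h, M.Oc V c g → M.Oc V c' h → M.Oc V (c + c') (g * h)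
  oc_pow : ∀ V c g (r : ℕ), M.Oc V c g → M.Oc V (r • c) (g ^ r)
  oc_root : ∀ V c g (r : ℕ), 0 < r → M.Oc V (r • c) (g ^ r) → M.Oc V c g
  oc_mono : ∀ V c c' g, (∀ j, M.Thru V j → c j ≤ c' j) → M.Oc V c g → M.Oc V c' g
  oc_div : ∀ V c g h, Ov V → M.Gen V c h → (M.Oc V c g ↔ g / h ∈ V)
  gen_oc : ∀ V c g, M.Gen V c g → M.Oc V c g
  gen_mul : ∀ V c c' g h, M.Gen V c g → M.Gen V c' h → M.Gen V (c + c') (g * h)
  gen_pow : ∀ V c g (r : ℕ), M.Gen V c g → M.Gen V (r • c) (g ^ r)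
  gen_root : ∀ V c g (r : ℕ), 0 < r → M.Gen V (r • c) (g ^ r) → M.Gen V c g
  gen_inv : ∀ V c g, M.Gen V c g → M.Gen V (-c) g⁻¹
  gen_of_mul : ∀ V c c' g h, M.Oc V c g → M.Oc V c' h → M.Gen V (c + c') (g * h) → M.Gen V c g
  gen_congr : ∀ V c c' g, (∀ j, M.Thru V j → c j = c' j) → M.Gen V c g → M.Gen V c' g
  gen_small : ∀ V o c g h, V ≤ (M.v o).O → M.Gen V c g → h - g ∈ (M.v o).F (1 - c o) →
    M.Gen V c h
  gen_f : ∀ V, M.Gen V (-M.aa) (ip N f)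
  f_pow : ∀ c, ∃ r0 : ℕ, ∀ r ≥ r0, ip N f ^ r ∈ M.H c ∧ ∀ j, ip N f ^ r ∈ (M.v j).F (1 - c j)
  H_R : ∀ o c, M.H c ⊆ M.R o c
  F_R : ∀ o c, ∀ g ∈ (M.v o).F (1 - c o), g ∈ M.R o c
  R_F : ∀ o c, ∀ g ∈ M.R o c, g ∈ (M.v o).F (-c o)
  lf_R : ∀ o c s, M.Lf o c s → s ∈ M.R o c
  lf_mul : ∀ o c c' s s', M.Lf o c s → M.Lf o c' s' → M.Lf o (c + c') (s * s')
  lf_mono : ∀ o c c' s, c ≤ c' → c o = c' o → M.Lf o c s → M.Lf o c' s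
  free_zero : M.Free 0
  free_add : ∀ c c', M.Free c → M.Free c' → M.Free (c + c')
  free_nsmul : ∀ c (r : ℕ), M.Free c → M.Free (r • c)
  free_aa : ∀ r : ℤ, M.Free (r • M.aa)
  amp_free : ∀ w, M.Amp w → M.Free w
  gens_bpf : ∀ o c T, M.Gens c T → M.Bpf o c T
  bpf_mul : ∀ o c c' U U', M.Bpf o c U → M.Bpf o c' U' → ∃ U'', M.Bpf o (c + c') U'' ∧
    ∀ u'' ∈ U'', ∃ u ∈ U, ∃ u' ∈ U', u'' = u * u'
  bpf_pow : ∀ o c U (r : ℕ), M.Bpf o c U → ∃ U', M.Bpf o (r • c) U' ∧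
    ∀ u' ∈ U', ∃ u ∈ U, u' = u ^ r

def SBas1 : Prop := AllM fun _ M => Bas1 M
def SBas : Prop := AllM fun f M => Bas f M
def OfBas : Prop := SBas1 → SBas

/-- Derivations. -/
structure Der (M : Mod N) : Prop where
  chain : ∀ (δ : Derivation ℂ (KK N) (KK N)) a g, δ g = ∑ l, δ (M.S.z a l) * M.S.D a l g
  lc : ∀ b V l g, Lc (M.S.A b) V g → Lc (M.S.A b) V (M.S.D b l g)
  ord : ∀ b j l0, M.In b (M.v j).O → M.S.lab b j = some l0 → ∀ l m, ∀ g ∈ (M.v j).F m,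
    M.S.D b l g ∈ (M.v j).F (m - if l = l0 then 1 else 0)

def SDer : Prop := AllM fun _ M => Der M
def OfDer : Prop := SBas → SDer

/-- Localizations of charts are intersections of valuation rings. -/
structure Nb (M : Mod N) : Prop where
  loc : ∀ b (B : Subalgebra ℂ (KK N)), M.S.A b ≤ B →
    (∀ g ∈ B, ∃ u ∈ M.S.A b, u ≠ 0 ∧ u⁻¹ ∈ B ∧ u * g ∈ M.S.A b) →
    ∀ g, (∀ V : Vl N, (∀ h ∈ B, h ∈ V) → g ∈ V) → g ∈ B
  ch : ∀ b g, (∀ V, M.In b V → g ∈ V) → g ∈ M.S.A b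
  aw : ∀ b, ∀ t ∈ M.S.A b, t ≠ 0 → ∀ g, (∀ V, M.In b V → t⁻¹ ∈ V → g ∈ V) →
    ∃ e : ℕ, t ^ e * g ∈ M.S.A b
  lc : ∀ b V g, M.In b V →
    (∀ V', M.In b V' → (∀ s ∈ M.S.A b, Un V s → Un V' s) → g ∈ V') → Lc (M.S.A b) V g
  H : ∀ c g, g ∈ M.H c ↔ ∀ b, g * M.mon b c ∈ M.S.A b
  noeth : ∀ b, IsNoetherianRing (M.S.A b)
  pt : ∀ b (P : Ideal (M.S.A b)), P.IsPrime → ∃ V, M.In b V ∧ ∀ g : M.S.A b, g ∈ P ↔ ¬Un V g

def SNb : Prop := AllM fun _ M => Nb M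
def OfNb : Prop := SNrm → SBas → SNb

/-- The divisors are normal. -/
def SNs : Prop := AllM fun _ M => ∀ b o, ∀ t ∈ M.S.A b, M.In b (M.v o).O → Un (M.v o).O t → ∀ s,
  (∀ V, M.In b V → t⁻¹ ∈ V → V ≤ (M.v o).O → s ∈ V) →
  ∃ (e : ℕ) (g : KK _), g ∈ M.S.A b ∧ s - g / t ^ e ∈ (M.v o).F 1

def OfNs : Prop := SNrm → SBas → SNs

def SH : Prop := AllM fun {N} f M => ∀ c g,
  g ∈ M.H c ↔ (∃ (r : ℕ) (p : Po N), ip N f ^ r * g = ip N p) ∧ ∀ j, g ∈ (M.v j).F (-c j)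

def OfH : Prop := SBas → SH

/-- Factors of monomials are monomials. -/
def SMono : Prop := AllM fun _ M => ∀ b V g h c, M.In b V → Lc (M.S.A b) V g →
  Lc (M.S.A b) V h → g * h = M.mon b c → M.Gen V (fun j => -(M.v j).v g) g

def OfMono : Prop := SBas → SMono

/-- Curves on a divisor. -/
structure Cv (M : Mod N) : Prop where
  dvr : ∀ o j V b, M.IsCv o j V → M.In b V → ∀ g, g ≠ 0 → (M.v o).v g = 0 → ∃ e : ℤ,
    ∃ s ∈ M.S.A b, ∃ s' ∈ M.S.A b, Un V s ∧ Un V s' ∧ s * g - s' * M.η b j ^ e ∈ (M.v o).F 1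
  un : ∀ o j V b, M.IsCv o j V → M.In b V → ∀ g, g ≠ 0 → (M.v o).v g = 0 →
    ∃ e : ℤ, Un V (g / M.η b j ^ e) ∧ (g ∈ V ↔ 0 ≤ e)
  thru : ∀ o j V i, M.IsCv o j V → M.Thru V i → i = o ∨ i = j
  ext : ∀ o j V V' b, M.IsCv o j V → M.In b V → M.In b V' → V' ≤ (M.v o).O →
    (∀ s ∈ M.S.A b, Un V s ↔ Un V' s) → V' = V
  fin : ∀ o, {V | ∃ j, M.IsCv o j V}.Finite

def SCv : Prop := AllM fun _ M => Cv M
def OfCv : Prop := SBas → SNb → SCv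

def SCe : Prop := AllM fun _ M => ∀ o j V, Ov V → M.Thru V o → M.Thru V j → j ≠ o →
  ∃ V', M.IsCv o j V' ∧ ∀ b, M.In b V → M.In b V' ∧ ∀ s ∈ M.S.A b, Un V s → Un V' s

def OfCe : Prop := SGd → SBas → SNb → SCe

/-! ### Ample divisors -/

/-- The system of charts of an ample cover. -/
def SRef : Prop := AllM fun {N} _ M => ∀ (κ : Type) [Fintype κ] w (b : κ → M.ι) t ρ,
  M.AC w b t ρ → ∃ (S : Sys ℂ (KK N) κ M.J N) (ρ' : κ → (KK N)ˣ), S.r = M.S.r ∧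
    (∀ i, S.A i = M.S.A (b i) ⊔ Algebra.adjoin ℂ {(t i)⁻¹}) ∧ (∀ i, S.η i = M.S.η (b i)) ∧
    (∀ i, S.D i = M.S.D (b i)) ∧ (∀ i, (S.zh i).toRingHom.Etale) ∧ S.Pol (xx N) w ρ' ∧
    ∀ i, (ρ' i : KK N) = ρ i

/-- Clearing of poles along the complement of a chart of an ample cover. -/
def SClr : Prop := AllM fun _ M => ∀ (κ : Type) w (b : κ → M.ι) t ρ, M.AC w b t ρ →
  ∀ [Fintype κ] i c g, (∀ V, Ov V → M.Gen V w (ρ i) → M.Oc V c g) →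
    ∃ e0 : ℕ, ∀ e ≥ e0, ρ i ^ e * g ∈ M.H (e • w + c)

def OfClr : Prop := SBas → SNb → SClr
def OfRef : Prop := SBas → SNb → SClr → SRef

def SA1 : Prop := AllM fun _ M => ∀ w u, M.Amp w → ∃ r0 : ℕ, ∀ r ≥ r0, M.Amp (r • w + u)

def OfA1 : Prop := SBas → SClr → SA1

def SA3 : Prop := AllM fun _ M => ∀ w c, M.Amp w → M.Free c → M.Amp (w + c)

def OfA3 : Prop := SBas → SNb → SA3

structure Aq (M : Mod N) : Prop where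
  nsmul : ∀ w (r : ℕ), 0 < r → M.Amp w → M.Amp (r • w)
  of_amp : ∀ w, M.Amp w → M.AmpQ (M.q w)
  of_free : ∀ w, M.Free w → M.SemiQ (M.q w)
  semi : ∀ A, M.AmpQ A → M.SemiQ A
  smul : ∀ A (t : ℚ), 0 < t → M.AmpQ A → M.AmpQ (t • A)
  smul' : ∀ A (t : ℚ), 0 ≤ t → M.SemiQ A → M.SemiQ (t • A)
  add : ∀ A P, M.AmpQ A → M.SemiQ P → M.AmpQ (A + P)
  add' : ∀ P P', M.SemiQ P → M.SemiQ P' → M.SemiQ (P + P')
  opn : ∀ A u, M.AmpQ A → ∃ ε0 : ℚ, 0 < ε0 ∧ ∀ ε, 0 ≤ ε → ε ≤ ε0 → M.AmpQ (A + ε • u)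
  mult : ∀ P, M.SemiQ P → ∃ μ : ℕ, 0 < μ ∧ ∀ r : ℕ, ∃ w, M.Free w ∧ M.q w = (μ * r) • P

def SAq : Prop := AllM fun _ M => Aq M
def OfAq : Prop := SBas → SA1 → SA3 → SAq

/-! ### Vanishing and lifting -/

def SKV : Prop := AllM fun {N} _ M => ∀ (κ : Type) [Fintype κ] w (b : κ → M.ι) t ρ (μ : ℕ),
  M.AC w b t ρ → 0 < μ → ∀ g : κ → κ → KK N,
  (∀ i j V, Ov V → M.Gen V w (ρ i) → M.Gen V w (ρ j) → M.Oc V (M.kk + Sys.cl w μ) (g i j)) →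
  (∀ i j l, g i j + g j l = g i l) → ∃ h : κ → KK N,
    (∀ i V, Ov V → M.Gen V w (ρ i) → M.Oc V (M.kk + Sys.cl w μ) (h i)) ∧ ∀ i j, g i j = h i - h j

def OfKV : Prop := SKVF → SBas → SNb → SRef → SKV

def SL0 : Prop := AllM fun _ M => ∀ o A, M.AmpQ A →
  ∀ s ∈ M.R o (M.kk + M.e o + M.up A), M.Lf o (M.kk + M.e o + M.up A) s

def OfL0 : Prop := SBas → SNb → SNs → SKV → SL0

/-! ### Domination -/

structure Dc {W M : Mod N} (D : Dom W M) : Prop where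
  un_mon : ∀ a b V c, M.In a V → W.In b V → Un V (M.mon a c / W.mon b (D.pb c))
  oc : ∀ V c g, Ov V → (M.Oc V c g ↔ W.Oc V (D.pb c) g)
  gen : ∀ V c g, Ov V → (M.Gen V c g ↔ W.Gen V (D.pb c) g)
  H : ∀ c, W.H (D.pb c) = M.H c
  R : ∀ o c, W.R (D.e o) (D.pb c) = M.R o c
  gens : ∀ c T, M.Gens c T → W.Gens (D.pb c) T
  bpf : ∀ o c U, M.Bpf o c U → W.Bpf (D.e o) (D.pb c) U
  semi : ∀ P, M.SemiQ P → W.SemiQ (D.pb P)
  m_eq : ∀ a i j, M.In a (W.v i).O → (D.m i j : ℤ) = (W.v i).v (M.η a j)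
  inj : Function.Injective D.e
  pb_e : ∀ (R : Type) [CommRing R] (c : M.J → R) j, D.pb c (D.e j) = c j
  aa : D.pb M.aa = W.aa
  push : ∀ c, W.H c ⊆ M.H (D.pf c)
  lf : ∀ o c s, W.Lf (D.e o) c s → M.Lf o (D.pf c) s
  lc : ∀ a b V, M.In a V → W.In b V → ∀ g ∈ M.S.A a, Lc (W.S.A b) V g

def SDc : Prop := AllD fun D => Dc D
def OfDc : Prop := SBas → SH → SDc

/-- The local rings of `W` contain charts of `M`. -/
def Rd (W M : Mod N) : Prop := ∀ b V, W.In b V → ∃ a, ∀ g ∈ M.S.A a, Lc (W.S.A b) V g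

def SMk1 : Prop := ∀ (N : ℕ) (f : Po N) (W M : Mod N), W.OK f → M.OK f →
  ∀ (κ : Type) w (b : κ → M.ι) t ρ c, M.AC w b t ρ → (∀ i, ρ i ∈ W.H c) →
    (∀ V, Ov V → ∃ i, W.Gen V c (ρ i)) → Rd W M

def OfMk1 : Prop := SBas → SNb → SMk1

def SMk2 : Prop := ∀ (N : ℕ) (f : Po N) (W M : Mod N), W.OK f → M.OK f → Rd W M →
  Nonempty (Dom W M)

def OfMk2 : Prop := SBas → SMono → SMk2

/-- Principalisation of finitely many linear systems on a dominating model. -/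
def SB1 : Prop := AllM fun {N} f M => ∀ (κ : Type) [Fintype κ] (T : κ → Finset (KK N)),
  (∀ i, ∃ c, ∀ g ∈ T i, g ∈ M.H c) → (∀ i, ∃ r : ℕ, ip N f ^ r ∈ T i) →
  ∃ W : Mod N, W.OK f ∧ Nonempty (Dom W M) ∧ ∀ i, ∃ c, W.Gens c (T i)

def OfB1 : Prop := SB1raw → SBas → SNb → SH → SMono → SMk1 → SMk2 → SB1

def SA4 : Prop := AllD fun {_ W M} D => ∀ A, M.AmpQ A → ∃ Ξ : W.J → ℤ, 0 ≤ Ξ ∧ D.pf Ξ = 0 ∧
  ∃ ε0 : ℚ, 0 < ε0 ∧ ∀ ε, 0 < ε → ε ≤ ε0 → W.AmpQ (D.pb A - ε • W.q Ξ)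

def OfA4 : Prop := SBas → SAq → SDc → SA4

/-! ### Discrepancies -/

def SJd : Prop := AllD fun {_ W M} D => (∀ a b V, M.In a V → W.In b V →
  Un V ((Matrix.of fun i l => W.S.D b i (M.S.z a l)).det * M.mon a M.kk / W.mon b W.kk)) ∧
  ∀ j, W.k (D.e j) = M.k j

def OfJd : Prop := SBas → SDer → SDc → SJd

def SPlt : Prop := AllD fun {_ _ M} D => ∀ (o : M.J) (β : M.J → ℚ), β o = 0 → (∀ j, β j < 1) →
  D.bd o β (D.e o) = 0 ∧ (∀ j, D.bd o β (D.e j) = β j) ∧ ∀ i, D.bd o β i < 1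

def OfPlt : Prop := SUnr → SJac → SBas → SDer → SDc → SJd → SPlt

/-- Adjunction in dimension three. -/
def SAdj : Prop := ∀ (f : Po 3) (W M : Mod 3) (D : Dom W M), W.OK f → M.OK f →
  ∀ o a b V (l0 l1 l2 i0 i1 i2 : Fin 3), M.In a V → W.In b V → V ≤ (M.v o).O →
  M.S.lab a o = some l0 → W.S.lab b (D.e o) = some i0 → l0 ≠ l1 → l0 ≠ l2 → l1 ≠ l2 →
  i0 ≠ i1 → i0 ≠ i2 → i1 ≠ i2 →
  Un V ((W.S.D b i1 (M.S.z a l1) * W.S.D b i2 (M.S.z a l2) -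
    W.S.D b i2 (M.S.z a l1) * W.S.D b i1 (M.S.z a l2)) * M.mon a (M.kk + M.e o) /
      W.mon b (W.kk + W.e (D.e o)))

def OfAdj : Prop := SBas → SDer → SDc → SJd → SAdj

/-! ### The extension theorem -/

/-- A section whose multiples by a free system lift becomes monomial. -/
def SMn : Prop := AllD fun {N W M} D => ∀ (o : M.J) (V c Z : M.J → ℤ) (n : ℕ) (σ : KK N)
  (U T : Finset (KK N)) (P : W.J → ℤ), Z o = 0 → 0 < n → σ ∈ M.R o c → σ ∉ (M.v o).F (1 - c o) →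
  M.Bpf o (V - n • c - Z) U → (∀ g ∈ T, g ∈ M.H V) → W.Gens P T →
  (∀ u ∈ U, ∃ g ∈ T, σ ^ n * u - g ∈ (M.v o).F (1 - V o)) →
  (∀ g ∈ T, g ∈ (M.v o).F (1 - V o) ∨ ∃ u ∈ U, σ ^ n * u - g ∈ (M.v o).F (1 - V o)) →
  P ≤ D.pb V ∧ P (D.e o) = V o ∧ ∃ e : W.J → ℤ, 0 ≤ e ∧ e (D.e o) = 0 ∧
    ∀ V', Ov V' → V' ≤ (M.v o).O → W.Gen V' (D.pb c - e) σ ∧
      ∀ i, W.Thru V' i → n * e i = D.pb V i - P i - D.pb Z i

def OfMn : Prop := SBas → SCv → SCe → SDc → SMn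

def SL : Prop := AllM fun {N} _ M => ∀ (o : M.J) (G V c Z : M.J → ℤ) (A β : M.J → ℚ) (t : ℚ)
  (n : ℕ) (σ : KK N) (U : Finset (KK N)), Z o = 0 → M.AmpQ A → β o = 0 → 0 ≤ t → 0 < n →
  t * n ≤ 1 → (∀ j, β j + t * Z j < 1) → M.q G = M.q (M.kk + M.e o) + A + β + t • M.q V →
  σ ∈ M.R o c → M.Bpf o (V - n • c - Z) U → (∀ u ∈ U, M.Lf o V (σ ^ n * u)) →
  ∀ u' ∈ M.R o (G - c), M.Lf o (G + M.up (-β)) (σ * u')

def OfL : Prop := SBas → SAq → SL0 → SDc → SB1 → SA4 → SJd → SPlt → SMn → SL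

def ST : Prop := AllM fun {N} _ M => ∀ (o : M.J) (B : M.J → ℚ) (n : ℕ) (nB nP P F : M.J → ℤ),
  0 < n → 0 ≤ B → (∀ j, B j < 1) → B o = 0 → M.q nB = n • B → M.Free nP → M.Free P → 0 ≤ F →
  F o = 0 → (∀ j, F j = 0 ∨ B j = 0) → n • (M.kk + M.e o) + nB + nP = P + F →
  ∃ (h : M.J → ℤ) (U : Finset (KK N)), M.Bpf o h U ∧ ∀ σ ∈ M.R o (P + F), ∀ l : ℕ,
    ∀ u ∈ M.R o h, M.Lf o (l • (P + F) + h) (σ ^ l * u)

def OfT : Prop := SBas → SA1 → SAq → SL0 → SL → ST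

def SE : Prop := AllD fun {N W M} D => ∀ (o : M.J) (A B : M.J → ℚ) (η : ℚ) (m q : ℕ)
  (mL aQ aE : M.J → ℤ) (P nb X : W.J → ℤ) (s : KK N), 0 < m → 0 < q → M.AmpQ A → 0 ≤ B →
  B o = 0 → 0 ≤ η → (∀ j, B j + η < 1) → M.q mL = m • (M.q (M.kk + M.e o) + A + B) →
  M.q aQ = q • A → M.q aE = q • (A - η • M.dd o) → M.Free aE → M.Free ((m + 1) • aQ) →
  W.Free P → P ≤ D.pb (q • mL + aQ) → P (D.e o) = (q • mL + aQ) o →
  W.q nb = (q * m) • D.bd o B →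
  (∀ i, X i = D.pb (q • mL + aQ - aE) i + max (-nb i) 0 -
    min (max (nb i) 0) (D.pb (q • mL + aQ) i - P i)) →
  s ∈ M.R o mL → s ^ q ∈ W.R (D.e o) X → M.Lf o mL s

def OfE : Prop := SBas → SAq → SDc → SA4 → SJd → SPlt → SL → ST → SE

/-- The boundary `B` is canonical on the divisor `o`. -/
def _root_.Pool.Agent.MP_ee8c61_ag.N3.Mod.Can (M : Mod N) (o : M.J) (B : M.J → ℚ) : Prop :=
  ∀ i j V, Ov V → V ≤ (M.v o).O → i ≠ j → i ≠ o → j ≠ o → M.Thru V i → M.Thru V j →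
    B i + B j ≤ 1

/-- A curve with positive coefficient is a curve of the lower model. -/
def SBd : Prop := ∀ (f : Po 3) (W M : Mod 3) (D : Dom W M), W.OK f → M.OK f →
  ∀ (o : M.J) (B : M.J → ℚ) i V, 0 ≤ B → (∀ j, B j ≤ 1) → B o = 0 → M.Can o B →
  W.IsCv (D.e o) i V → 0 < D.bd o B i →
  ∃ j, M.IsCv o j V ∧ D.bd o B i ≤ B j ∧ ∀ j', j' ≠ o → D.m i j' = if j' = j then 1 else 0

def OfBd : Prop := SUnr → SBas → SDer → SCv → SDc → SAdj → SBd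

def SE2 : Prop := ∀ (f : Po 3) (M : Mod 3), M.OK f → ∀ (o : M.J) (A B X : M.J → ℚ) (η : ℚ)
  (m : ℕ) (mL mB : M.J → ℤ) (s : KK 3), 0 < m → M.AmpQ A → 0 ≤ B → B o = 0 → 0 ≤ η →
  (∀ j, B j + η < 1) → M.Can o B → M.SemiQ (A - η • M.dd o) →
  M.q mL = m • (M.q (M.kk + M.e o) + A + B) → M.q mB = m • B →
  M.SemiQ (M.q (M.kk + M.e o) + A + B + (m : ℚ)⁻¹ • A - X) →
  (∃ (r : ℕ) (Y : M.J → ℤ) (g : KK 3), 0 < r ∧ M.q Y = r • X ∧ g ∈ M.H Y ∧ M.Gen (M.v o).O Y g) →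
  s ∈ M.R o mL →
  (∀ j V, M.IsCv o j V → ∃ e : ℕ, M.Oc V (mL - (e : ℤ) • M.e j) s ∧ (m * B j ≤ e + η ∨
    ∃ (r e' : ℕ) (Y : M.J → ℤ) (g : KK 3), 0 < r ∧ M.q Y = r • X ∧ g ∈ M.H Y ∧
      M.Gen V (Y - (e' : ℤ) • M.e j) g ∧ (m : ℚ) * e' ≤ r * (e + η))) →
  M.Lf o mL s

def OfE2 : Prop :=
  SBas → SCv → SCe → SA1 → SAq → SL0 → SDc → SB1 → SMn → SE → SBd → SE2

def SCan : Prop := ∀ (f : Po 3) (M : Mod 3), M.OK f → ∀ δ : ℚ, 0 < δ →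
  ∃ (W : Mod 3) (D : Dom W M), W.OK f ∧ ∀ (o : M.J) (B : M.J → ℚ), 0 ≤ B → (∀ j, B j ≤ 1 - δ) →
    B o = 0 → ∀ i i' V, Ov V → V ≤ (M.v o).O → i ≠ i' → i ≠ D.e o → i' ≠ D.e o →
      W.Thru V i → W.Thru V i' → D.bd o B i + D.bd o B i' ≤ 1 - δ

def OfCan : Prop := SBas → SDer → SNb → SCv → SCe → SA1 → SDc → SB1 → SAdj → SCan

end

end Pool.Agent.MP_ee8c61_ag.N3.M3E
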