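import Pool.Agent.MP_ee8c61_ag.N3E.Spec

/-!
The Jacobian determinant of a domination.
-/

namespace Pool.Agent.MP_ee8c61_ag.N3.M3E

open Pool.Agent.MP_ee8c61_ag.M3

set_option linter.unusedSectionVars false

variable [Base]

open H59 M3 Finset

namespace RJd

variable {N : ℕ}

theorem un_isU {M : Mod N} {b : M.ι} {V : Vl N} {U : (KK N)ˣ} (hb : M.In b V)
    (hU : M.S.IsU b U) : Un V (U : KK N) :=
  ⟨U.ne_zero, hb _ hU.1, by simpa using hb _ hU.2⟩

theorem det_mem {K : Type} [Field K] {n : ℕ} (V : ValuationSubring K)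
    (A : Matrix (Fin n) (Fin n) K) (h : ∀ i l, A i l ∈ V) : A.det ∈ V := by
  rw [Matrix.det_apply']
  exact sum_mem fun σ _ => mul_mem (intCast_mem V _) (prod_mem fun i _ => h _ _)

theorem first {f : Po N} {W M : Mod N} (hW : W.OK f) (hM : M.OK f) (d : Der M) (a : M.ι)
    (b : W.ι) (V : Vl N) (ha : M.In a V) (hb : W.In b V) :
    Un V ((Matrix.of fun i l => W.S.D b i (M.S.z a l)).det * M.mon a M.kk / W.mon b W.kk) := by
  obtain ⟨U, hU, e⟩ := hM.det a
  obtain ⟨U', hU', e'⟩ := hW.det b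
  have key : (Matrix.of fun l i => W.S.D b i (W.S.r l)) =
      (Matrix.of fun l i => M.S.D a i (M.S.r l)) *
        (Matrix.of fun i l => W.S.D b i (M.S.z a l)).transpose := by
    ext l i
    rw [Matrix.mul_apply, Matrix.of_apply, hW.r, ← hM.r, d.chain (W.S.D b i) a]
    exact sum_congr rfl fun m _ => mul_comm _ _
  rw [key, Matrix.det_mul, Matrix.det_transpose, e] at e'
  have h1 := W.mon_ne b W.kk
  have h2 : (U : KK N) ≠ 0 := U.ne_zero
  have : (Matrix.of fun i l => W.S.D b i (M.S.z a l)).det * M.mon a M.kk / W.mon b W.kk =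
      (U' : KK N) / U := by
    rw [div_eq_div_iff h1 h2, ← e']
    ring
  rw [this]
  exact (un_isU hb hU').div (un_isU ha hU)

end RJd

theorem rowJd : OfJd := by
  intro hB hD _ N f W M D hW hM
  have dM := hD N f M hM
  have dW := hD N f W hW
  have bM := hB N f M hM
  have bW := hB N f W hW
  refine ⟨RJd.first hW hM dM, fun j => ?_⟩
  obtain ⟨a, ha⟩ := hM.cov _ (bM.ov_v j)
  obtain ⟨b, hb⟩ := hW.cov _ (bW.ov_v (D.e j))
  have hb' : W.In b (M.v j).O := D.v j ▸ hb
  have m1 : (Matrix.of fun i l => W.S.D b i (M.S.z a l)).det ∈ (M.v j).O := by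
    refine RJd.det_mem _ _ fun i l => ?_
    have := bW.frac b (D.e j) hb (M.S.z a l) (by rw [D.v]; exact ha _ (M.S.z_mem a l))
    rw [D.v] at this
    exact (dW.lc b _ i _ this).mem' hb'
  have m2 : (Matrix.of fun i l => M.S.D a i (W.S.z b l)).det ∈ (M.v j).O :=
    RJd.det_mem _ _ fun i l =>
      (dM.lc a _ i _ (bM.frac a j ha _ (hb' _ (W.S.z_mem b l)))).mem' ha
  have one : (Matrix.of fun i l => W.S.D b i (M.S.z a l)) *
      (Matrix.of fun i l => M.S.D a i (W.S.z b l)) = 1 := by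
    ext i l
    rw [Matrix.mul_apply, Matrix.one_apply, ← W.S.D_z b i l, dM.chain (W.S.D b i) a]
    rfl
  have u : Un (M.v j).O (Matrix.of fun i l => W.S.D b i (M.S.z a l)).det := by
    refine Un.of_mul ?_ m1 m2
    rw [← Matrix.det_mul, one, Matrix.det_one]
    exact un_one
  have k := RJd.first hW hM dM a b _ ha hb'
  rw [mul_div_assoc, mul_comm] at k
  have k2 := ((M.v j).un_O.1 (k.cancel u)).2
  have k3 := bW.v_mon b (D.e j) W.kk hb
  rw [D.v] at k3
  rw [(M.v j).div (M.mon_ne _ _) (W.mon_ne _ _), bM.v_mon a j _ ha, k3] at k2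
  simp only [Mod.kk] at k2
  omega

end Pool.Agent.MP_ee8c61_ag.N3.M3E
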