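import Pool.Agent.MP_ee8c61_ag.N3E.Rows
import Pool.Agent.MP_ee8c61_ag.N3B1.All

/-! The lifting block over a base. -/

namespace Pool.Agent.MP_ee8c61_ag.N3.M3E

variable [Base]

theorem eout : EOut := eout_raw B1.sb1raw

end Pool.Agent.MP_ee8c61_ag.N3.M3E
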