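import Pool.Agent.MP_ee8c61_ag.N3E.Spec

/-!
Logarithmic Jacobians in two coordinates; principalisation of pairs of monomials.
-/

namespace Pool.Agent.MP_ee8c61_ag.N3.M3E

open Pool.Agent.MP_ee8c61_ag.M3

set_option linter.unusedSectionVars false

variable [Base]

open H59 M3 Finset

namespace RCan

section Loc

variable {K : Type} [Field K] [Algebra ℂ K]

/-- `r` is the monomial with exponents `x, y` up to a unit, along the family `G`. -/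
def Mo (G : ValuationSubring K → Prop) (u1 u2 r : K) (x y : ℤ) : Prop :=
  ∀ V', G V' → Un V' (r / (u1 ^ x * u2 ^ y))

/-- Two coordinates at the centre of `V`. -/
structure Loc (L : Subalgebra ℂ K) (V : ValuationSubring K) (G : ValuationSubring K → Prop)
    (u1 u2 : K) (D1 D2 : Derivation ℂ K K) : Prop where
  le : ∀ g ∈ L, g ∈ V
  gV : G V
  m1 : u1 ∈ L
  m2 : u2 ∈ L
  z1 : u1 ≠ 0
  z2 : u2 ≠ 0
  n1 : ¬Un V u1
  n2 : ¬Un V u2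
  c1 : ∃ V', G V' ∧ (∀ g ∈ L, g ∈ V') ∧ ¬Un V' u1 ∧ Un V' u2
  c2 : ∃ V', G V' ∧ (∀ g ∈ L, g ∈ V') ∧ ¬Un V' u2 ∧ Un V' u1
  d1 : ∀ g ∈ L, D1 g ∈ L
  d2 : ∀ g ∈ L, D2 g ∈ L
  e11 : D1 u1 = 1
  e12 : D1 u2 = 0
  e21 : D2 u1 = 0
  e22 : D2 u2 = 1

/-- The logarithmic derivatives of `z` are `p, q` up to non-units. -/
def Fr (L : Subalgebra ℂ K) (V : ValuationSubring K) (G : ValuationSubring K → Prop)
    (u1 u2 : K) (D1 D2 : Derivation ℂ K K) (z : K) (p q : ℕ) : Prop :=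
  z ∈ L ∧ ∃ w, Mo G u1 u2 w p q ∧ ∃ a ∈ L, ∃ b ∈ L, ¬Un V a ∧ ¬Un V b ∧
    u1 * D1 z = (p + a) * w ∧ u2 * D2 z = (q + b) * w

variable {L : Subalgebra ℂ K} {V : ValuationSubring K} {G : ValuationSubring K → Prop}
  {u1 u2 : K} {D1 D2 : Derivation ℂ K K}

theorem Loc.exp (H : Loc L V G u1 u2 D1 D2) {r : K} {x y : ℤ} (hr : r ∈ L)
    (h : Mo G u1 u2 r x y) : 0 ≤ x ∧ 0 ≤ y ∧ (¬Un V r → 1 ≤ x + y) := by
  have key : ∀ (V' : ValuationSubring K) (s t : K) (e e' : ℤ), r ∈ V' → s ≠ 0 → s ∈ V' →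
      ¬Un V' s → Un V' t → Un V' (r / (s ^ e * t ^ e')) → 0 ≤ e := by
    intro V' s t e e' h1 h2 h3 h4 h5 h6
    rw [← zpow_mem_iff h2 h3 h4, ← (h6.mul (h5.zpow e')).mem_iff]
    have h7 := zpow_ne_zero e h2
    have h8 := zpow_ne_zero e' h5.1
    rwa [show s ^ e * (r / (s ^ e * t ^ e') * t ^ e') = r by field_simp]
  obtain ⟨V1, a1, a2, a3, a4⟩ := H.c1
  obtain ⟨V2, b1, b2, b3, b4⟩ := H.c2
  have hx := key V1 u1 u2 x y (a2 r hr) H.z1 (a2 _ H.m1) a3 a4 (h V1 a1)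
  have hy := key V2 u2 u1 y x (b2 r hr) H.z2 (b2 _ H.m2) b3 b4 (mul_comm (u1 ^ x) _ ▸ h V2 b1)
  refine ⟨hx, hy, fun hn => by_contra fun hc => hn ?_⟩
  have := h V H.gV
  rwa [show x = 0 by omega, show y = 0 by omega, zpow_zero, zpow_zero, mul_one, div_one] at this

theorem Loc.exp_one (H : Loc L V G u1 u2 D1 D2) {x y : ℤ} (h : Mo G u1 u2 1 x y) :
    x = 0 ∧ y = 0 := by
  obtain ⟨a, b, -⟩ := H.exp (one_mem L) h
  obtain ⟨c, d, -⟩ := H.exp (x := -x) (y := -y) (one_mem L) fun V' hV => by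
    have := (h V' hV).inv
    rwa [one_div, inv_inv, ← one_div_one_div (_ * _), one_div (_ * _), mul_inv, ← zpow_neg,
      ← zpow_neg] at this
  omega

theorem Loc.fr_zero (H : Loc L V G u1 u2 D1 D2) {z : K} (hz : z ∈ L) :
    Fr L V G u1 u2 D1 D2 z 0 0 := by
  refine ⟨hz, 1, fun V' _ => by simpa using un_one, D1 z * u1, mul_mem (H.d1 z hz) H.m1,
    D2 z * u2, mul_mem (H.d2 z hz) H.m2, not_un_mul (H.le _ (H.d1 z hz)) (H.le _ H.m1) H.n1,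
    not_un_mul (H.le _ (H.d2 z hz)) (H.le _ H.m2) H.n2, by simp [mul_comm], by simp [mul_comm]⟩

theorem ld (d : Derivation ℂ K K) {s t ε : K} (h1 : d s = 1) (h2 : d t = 0) (h0 : ε ≠ 0)
    (p q : ℕ) : s * d (ε * (s ^ p * t ^ q)) = (p + d ε * ε⁻¹ * s) * (ε * (s ^ p * t ^ q)) := by
  have h3 : s * d (s ^ p) = p * s ^ p := by
    rw [d.leibniz_pow, h1]
    rcases p with _ | p
    · simp
    · simp only [Nat.add_sub_cancel, smul_eq_mul, mul_one, nsmul_eq_mul]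
      ring
  have h4 : d (t ^ q) = 0 := by rw [d.leibniz_pow, h2, smul_zero, smul_zero]
  have h5 : ε⁻¹ * ε = 1 := inv_mul_cancel₀ h0
  rw [d.leibniz, d.leibniz, h4]
  simp only [smul_eq_mul]
  linear_combination (ε * t ^ q) * h3 - (d ε * s * s ^ p * t ^ q) * h5

theorem Loc.fr_mon (H : Loc L V G u1 u2 D1 D2) {z : K} {p q : ℕ} (hz : z ∈ L)
    (h : Mo G u1 u2 z p q) (h1 : z / (u1 ^ p * u2 ^ q) ∈ L) (h2 : (z / (u1 ^ p * u2 ^ q))⁻¹ ∈ L) :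
    Fr L V G u1 u2 D1 D2 z p q := by
  have h0 : z / (u1 ^ p * u2 ^ q) ≠ 0 := by simpa using (h V H.gV).1
  have e : z = z / (u1 ^ p * u2 ^ q) * (u1 ^ p * u2 ^ q) :=
    (div_mul_cancel₀ _ (mul_ne_zero (pow_ne_zero _ H.z1) (pow_ne_zero _ H.z2))).symm
  generalize z / (u1 ^ p * u2 ^ q) = ε at h0 h1 h2 e
  have a1 := mul_mem (H.d1 ε h1) h2
  have a2 := mul_mem (H.d2 ε h1) h2
  refine ⟨hz, z, h, _, mul_mem a1 H.m1, _, mul_mem a2 H.m2,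
    not_un_mul (H.le _ a1) (H.le _ H.m1) H.n1, not_un_mul (H.le _ a2) (H.le _ H.m2) H.n2, ?_, ?_⟩
  · rw [e]; exact ld D1 H.e11 H.e12 h0 p q
  · rw [e, mul_comm (u1 ^ p)]; exact ld D2 H.e22 H.e21 h0 q p

theorem Loc.main (H : Loc L V G u1 u2 D1 D2) {z1 z2 : K} {p1 q1 p2 q2 : ℕ} {x y : ℤ}
    (F1 : Fr L V G u1 u2 D1 D2 z1 p1 q1) (F2 : Fr L V G u1 u2 D1 D2 z2 p2 q2)
    (h : Mo G u1 u2 (D1 z1 * D2 z2 - D2 z1 * D1 z2) x y) :
    0 ≤ x + y ∧ (p1 + q1 + (p2 + q2) : ℤ) ≤ x + y + 2 ∧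
      (p1 * q2 = q1 * p2 → (p1 + q1 + (p2 + q2) : ℤ) ≤ x + y + 1) := by
  obtain ⟨hz1, w1, M1, a1, ha1, b1, hb1, na1, nb1, e1, f1⟩ := F1
  obtain ⟨hz2, w2, M2, a2, ha2, b2, hb2, na2, nb2, e2, f2⟩ := F2
  obtain ⟨s1, s2, -⟩ := H.exp (sub_mem (mul_mem (H.d1 _ hz1) (H.d2 _ hz2))
    (mul_mem (H.d2 _ hz1) (H.d1 _ hz2))) h
  have c : ∀ (n : ℕ) (g : K), g ∈ L → (n : K) + g ∈ L := fun n g hg =>
    add_mem (natCast_mem L n) hg
  have hr : (p1 + a1) * (q2 + b2) - (q1 + b1) * (p2 + a2) ∈ L :=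
    sub_mem (mul_mem (c _ _ ha1) (c _ _ hb2)) (mul_mem (c _ _ hb1) (c _ _ ha2))
  have w10 : w1 ≠ 0 := (div_ne_zero_iff.1 (M1 V H.gV).1).1
  have w20 : w2 ≠ 0 := (div_ne_zero_iff.1 (M2 V H.gV).1).1
  have e : (p1 + a1) * (q2 + b2) - (q1 + b1) * (p2 + a2) =
      u1 * u2 * (D1 z1 * D2 z2 - D2 z1 * D1 z2) / (w1 * w2) := by
    rw [eq_div_iff (mul_ne_zero w10 w20)]
    linear_combination (-(u2 * D2 z2)) * e1 - ((p1 + a1) * w1) * f2 + (u1 * D1 z2) * f1 +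
      ((q1 + b1) * w1) * e2
  obtain ⟨t1, t2, t3⟩ := H.exp (x := x + 1 - p1 - p2) (y := y + 1 - q1 - q2) hr fun V' hV => by
    have := ((h V' hV).div (M1 V' hV)).div (M2 V' hV)
    rw [e]
    have z1 := H.z1
    have z2 := H.z2
    have a := zpow_ne_zero x z1
    have b := zpow_ne_zero y z2
    simp only [zpow_sub₀ z1, zpow_sub₀ z2, zpow_add_one₀ z1, zpow_add_one₀ z2,
      zpow_natCast] at this ⊢
    refine Eq.mp (congrArg (Un V') ?_) this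
    field_simp
  refine ⟨by omega, by omega, fun hd => ?_⟩
  have hd' : (p1 : K) * q2 = q1 * p2 := by exact_mod_cast congrArg (Nat.cast (R := K)) hd
  have v := H.le
  have nn : ∀ (g g' : K), g ∈ L → g' ∈ L → ¬Un V g' → g * g' ∈ V ∧ ¬Un V (g * g') :=
    fun g g' hg hg' hn => ⟨v _ (mul_mem hg hg'), not_un_mul (v _ hg) (v _ hg') hn⟩
  obtain ⟨k1, k2⟩ := nn _ _ (natCast_mem L p1) hb2 nb2
  obtain ⟨k3, k4⟩ := nn _ _ (c q2 _ hb2) ha1 na1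
  obtain ⟨k5, k6⟩ := nn _ _ (neg_mem (natCast_mem L q1)) ha2 na2
  obtain ⟨k7, k8⟩ := nn _ _ (neg_mem (c p2 _ ha2)) hb1 nb1
  have := t3 (by
    have := not_un_add (add_mem k1 k3) (add_mem k5 k7) (not_un_add k1 k3 k2 k4)
      (not_un_add k5 k7 k6 k8)
    refine Eq.mp (congrArg (fun g => ¬Un V g) ?_) this
    linear_combination -hd')
  omega

end Loc

variable {N : ℕ} {f : Po N} {W M : Mod N}

theorem k_le (hM : M.OK f) (hW : W.OK f) (bM : Bas f M) (bW : Bas f W) (dM : Der M) (dW : Der W)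
    {j : M.J} {j' : W.J} (h : W.v j' = M.v j) : M.k j ≤ W.k j' := by
  obtain ⟨a, ha⟩ := hM.cov _ (bM.ov_v j)
  obtain ⟨b, hb⟩ := hW.cov _ (bW.ov_v j')
  obtain ⟨U, hU, eU⟩ := hM.det a
  obtain ⟨U', hU', eU'⟩ := hW.det b
  have u1 : Un (M.v j).O (U : KK N) := ⟨U.ne_zero, ha _ hU.1, by simpa using ha _ hU.2⟩
  have u2 : Un (W.v j').O (U' : KK N) := ⟨U'.ne_zero, hb _ hU'.1, by simpa using hb _ hU'.2⟩
  have e : (Matrix.of fun l i => W.S.D b i (W.S.r l)) =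
      (Matrix.of fun l i => M.S.D a i (M.S.r l)) * Matrix.of fun l i => W.S.D b i (M.S.z a l) := by
    ext l i
    rw [Matrix.mul_apply, Matrix.of_apply, dM.chain (W.S.D b i) a, hW.r, hM.r]
    exact sum_congr rfl fun l' _ => mul_comm _ _
  have hJ : (Matrix.of fun l i => W.S.D b i (M.S.z a l)).det ∈ (W.v j').O := by
    rw [Matrix.det_apply']
    refine sum_mem fun σ _ => mul_mem (intCast_mem _ _) (prod_mem fun i _ => ?_)
    exact (dW.lc b _ i _ (bW.frac b j' hb _ (h ▸ ha _ (M.S.z_mem a _)))).mem' hb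
  rw [e, Matrix.det_mul, eU] at eU'
  generalize (Matrix.of fun l i => W.S.D b i (M.S.z a l)).det = J at hJ eU'
  have n1 := mul_ne_zero U.ne_zero (M.mon_ne a M.kk)
  have n2 : J ≠ 0 := fun e0 => mul_ne_zero U'.ne_zero (W.mon_ne b W.kk) (by
    rw [← eU', e0, mul_zero])
  have h1 := congrArg (W.v j').v eU'
  rw [(W.v j').mul _ _ n1 n2, (W.v j').mul _ _ U'.ne_zero (W.mon_ne b _), bW.v_mon b j' _ hb,
    ((W.v j').un_O.1 u2).2, h, (M.v j).mul _ _ U.ne_zero (M.mon_ne a _), bM.v_mon a j _ ha,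
    ((M.v j).un_O.1 u1).2] at h1
  have h2 : 0 ≤ (M.v j).v J := h ▸ Or.resolve_left hJ n2
  simp only [Mod.kk] at h1
  omega

/-- Pairs of powers of bounded degree of the divisors are comparable along every valuation. -/
def Pr (D : Dom W M) (n : ℕ) : Prop :=
  ∀ (j1 j2 : M.J) (o1 o2 : ℕ), o1 ≤ n → o2 ≤ n → ∀ V, Ov V →
    (∀ s, W.Thru V s → o2 * D.m s j1 ≤ o1 * D.m s j2) ∨
      ∀ s, W.Thru V s → o1 * D.m s j2 ≤ o2 * D.m s j1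

theorem cmp {D : Dom W M} (hW : W.OK f) (bW : Bas f W) (nW : Nb W) (dc : Dc D) {P : W.J → ℤ}
    {T T2 : Finset (KK N)} (hP : W.Gens P T) {c1 c2 : M.J → ℤ} {g : KK N} {V : Vl N} (hV : Ov V)
    (hg : g ∈ T) (h1 : W.Gen V P g) (h2 : g ∈ M.H c1) (h3 : M.Gens c2 T2) (h4 : T2 ⊆ T)
    (s : W.J) (hs : W.Thru V s) : D.pb c2 s ≤ D.pb c1 s := by
  obtain ⟨b, hb⟩ := hW.cov V hV
  obtain ⟨a1, -, -, a2⟩ := bW.in_v b V s hb hs
  have u := h1 b hb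
  have g0 : g ≠ 0 := left_ne_zero_of_mul u.1
  have e1 := a2 _ ((nW.H P g).1 (hP.1 g hg) b) u
  rw [(W.v s).mul _ _ g0 (W.mon_ne b P), bW.v_mon b s P a1] at e1
  have e2 := ((bW.oc_v s _ g).1 ((dc.H c1 ▸ h2 : g ∈ W.H (D.pb c1)) _ (bW.ov_v s))).resolve_left g0
  obtain ⟨g', k1, k2⟩ := (dc.gens c2 T2 h3).2 _ (bW.ov_v s)
  obtain ⟨k3, k4⟩ := (bW.gen_v s _ g').1 k2
  have e3 := ((bW.oc_v s _ g').1 (hP.1 g' (h4 k1) _ (bW.ov_v s))).resolve_left k3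
  omega

theorem exPr (h1 : SBas) (h2 : SNb) (h3 : SA1) (h4 : SDc) (h5 : SB1) (hM : M.OK f) (n : ℕ) :
    ∃ (W : Mod N) (D : Dom W M), W.OK f ∧ Pr D n := by
  classical
  have bM := h1 N f M hM
  obtain ⟨w, hw⟩ := hM.amp
  have key : ∀ k : M.J × M.J × Fin (n + 1) × Fin (n + 1), ∃ (c : M.J → ℤ)
      (T1 T2 : Finset (KK N)) (r : ℕ), M.Gens (c - (k.2.2.2 : ℕ) • M.e k.1) T1 ∧
        M.Gens (c - (k.2.2.1 : ℕ) • M.e k.2.1) T2 ∧
        ip N f ^ r ∈ M.H (c - (k.2.2.2 : ℕ) • M.e k.1) := fun k => by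
    obtain ⟨r1, e1⟩ := h3 N f M hM w (-((k.2.2.2 : ℕ) • M.e k.1)) hw
    obtain ⟨r2, e2⟩ := h3 N f M hM w (-((k.2.2.1 : ℕ) • M.e k.2.1)) hw
    obtain ⟨T1, t1⟩ := bM.amp_free _ (e1 (max r1 r2) (le_max_left _ _))
    obtain ⟨T2, t2⟩ := bM.amp_free _ (e2 (max r1 r2) (le_max_right _ _))
    rw [← sub_eq_add_neg] at t1 t2
    obtain ⟨r, hr⟩ := bM.f_pow (max r1 r2 • w - (k.2.2.2 : ℕ) • M.e k.1)
    exact ⟨_, T1, T2, r, t1, t2, (hr r le_rfl).1⟩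
  choose c T1 T2 r k1 k2 k3 using key
  have mem : ∀ k, ∀ g ∈ insert (ip N f ^ r k) (T1 k ∪ T2 k),
      g ∈ M.H (c k - (k.2.2.2 : ℕ) • M.e k.1) ∨ g ∈ M.H (c k - (k.2.2.1 : ℕ) • M.e k.2.1) := by
    intro k g hg
    rcases mem_insert.1 hg with rfl | hg
    · exact Or.inl (k3 k)
    · exact (mem_union.1 hg).imp ((k1 k).1 g) ((k2 k).1 g)
  have mono : ∀ (c : M.J → ℤ) (t : ℕ) (j : M.J), M.H (c - t • M.e j) ⊆ M.H c :=
    fun c t j g hg V hV => bM.oc_mono V _ _ g (fun j' _ => by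
      rw [Pi.sub_apply, Pi.smul_apply, Mod.e_apply, nsmul_eq_mul]
      split_ifs <;> omega) (hg V hV)
  obtain ⟨W, hW, ⟨D⟩, hP⟩ := h5 N f M hM _ (fun k => insert (ip N f ^ r k) (T1 k ∪ T2 k))
    (fun k => ⟨c k, fun g hg => (mem k g hg).elim (mono _ _ _ ·) (mono _ _ _ ·)⟩)
    fun k => ⟨r k, mem_insert_self _ _⟩
  refine ⟨W, D, hW, fun j1 j2 o1 o2 l1 l2 V hV => ?_⟩
  let k : M.J × M.J × Fin (n + 1) × Fin (n + 1) := (j1, j2, ⟨o1, by omega⟩, ⟨o2, by omega⟩)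
  obtain ⟨P, hP⟩ := hP k
  obtain ⟨g, hg, hg'⟩ := hP.2 V hV
  have C := fun c1 c2 T2 => cmp (c1 := c1) (c2 := c2) (T2 := T2) hW (h1 N f W hW) (h2 N f W hW)
    (h4 N f W M D hW hM) hP hV hg hg'
  rcases mem k g hg with h | h
  · refine Or.inl fun s hs => ?_
    have := C _ _ _ h (k2 k) (subset_union_right.trans (subset_insert _ _)) s hs
    simp only [D.pb_sub, D.pb_nsmul, Pi.sub_apply, Pi.smul_apply, D.pb_e, k] at this
    rw [nsmul_eq_mul, nsmul_eq_mul] at this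
    exact_mod_cast (sub_le_sub_iff_left _).1 this
  · refine Or.inr fun s hs => ?_
    have := C _ _ _ h (k1 k) (subset_union_left.trans (subset_insert _ _)) s hs
    simp only [D.pb_sub, D.pb_nsmul, Pi.sub_apply, Pi.smul_apply, D.pb_e, k] at this
    rw [nsmul_eq_mul, nsmul_eq_mul] at this
    exact_mod_cast (sub_le_sub_iff_left _).1 this

end RCan

end Pool.Agent.MP_ee8c61_ag.N3.M3E
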