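import Pool.Agent.MP_ee8c61_ag.N3E.Spec

/-!
The crepant pull-back of a boundary with coefficients below one.
-/

namespace Pool.Agent.MP_ee8c61_ag.N3.M3E

open Pool.Agent.MP_ee8c61_ag.M3

set_option linter.unusedSectionVars false

variable [Base]

open H59 M3 Finset MvPolynomial

namespace RPlt

section Poly

variable {K : Type} [Field K] [Algebra ℂ K]

theorem der_aeval {σ : Type} [Fintype σ] (δ : Derivation ℂ K K) (z : σ → K)
    (p : MvPolynomial σ ℂ) : δ (aeval z p) = ∑ l, aeval z (pderiv l p) * δ (z l) := by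
  classical
  induction p using MvPolynomial.induction_on with
  | C c => simp
  | add p q hp hq => simp [hp, hq, add_mul, sum_add_distrib]
  | mul_X p i hp =>
    have e : ∀ l, aeval z (pderiv l (p * X i)) * δ (z l) =
        z i * (aeval z (pderiv l p) * δ (z l)) +
          if l = i then aeval z p * δ (z i) else 0 := fun l => by
      rw [Derivation.leibniz, pderiv_X]
      by_cases h : l = i
      · subst h
        simp
        ring
      · simp [h, Pi.single_apply, Ne.symm h]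
        ring
    rw [sum_congr rfl fun l _ => e l, sum_add_distrib, ← mul_sum, ← hp, map_mul, aeval_X,
      Derivation.leibniz]
    simp [add_comm]

theorem poly_zero {σ : Type} (z : σ → K) (V : ValuationSubring K)
    (hc : ∀ c : ℂ, algebraMap ℂ K c ∈ V)
    (h : ∀ (q : MvPolynomial σ ℂ) t, ¬Un V (aeval z q) → ¬Un V (aeval z (pderiv t q))) :
    ∀ q : MvPolynomial σ ℂ, ¬Un V (aeval z q) → q = 0 := by
  classical
  have key : ∀ (n : ℕ) (q : MvPolynomial σ ℂ), (∀ m, coeff m q ≠ 0 → m.degree < n) →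
      ¬Un V (aeval z q) → q = 0 := by
    intro n
    induction n with
    | zero =>
      intro q h1 _
      ext m
      by_contra h2
      exact absurd (h1 m h2) (Nat.not_lt_zero _)
    | succ n ih =>
      intro q h1 h2
      have h3 : ∀ t, pderiv t q = 0 := fun t => ih _ (fun m hm => by
        rw [coeff_pderiv] at hm
        have := h1 _ (left_ne_zero_of_mul hm)
        rw [map_add, Finsupp.degree_single] at this
        omega) (h q t h2)
      have h4 : q = C (coeff 0 q) := by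
        ext m
        by_cases hm : m = 0
        · simp [hm]
        · obtain ⟨t, ht⟩ := Finsupp.ne_iff.1 hm
          have h5 := coeff_pderiv (i := t) q (m - Finsupp.single t 1)
          have h6 : m - Finsupp.single t 1 + Finsupp.single t 1 = m :=
            tsub_add_cancel_of_le (Finsupp.single_le_iff.2 (Nat.one_le_iff_ne_zero.2 ht))
          rw [h3 t, h6, coeff_zero] at h5
          rw [coeff_C, if_neg (Ne.symm hm)]
          exact (mul_eq_zero.1 h5.symm).resolve_right (Nat.cast_add_one_ne_zero _)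
      by_contra h5
      refine h2 ?_
      have h6 : coeff 0 q ≠ 0 := fun e => h5 (by rw [h4, e, map_zero])
      rw [h4, aeval_C]
      exact ⟨(map_ne_zero _).2 h6, hc _, map_inv₀ (algebraMap ℂ K) _ ▸ hc _⟩
  intro q
  refine key (q.totalDegree + 1) q fun m hm => Nat.lt_succ_of_le ?_
  have := le_totalDegree (mem_support_iff.2 hm)
  rwa [Finsupp.degree_eq_weight_one, Finsupp.weight_apply, show (fun (_ : σ) (c : ℕ) =>
    c • (1 : ℕ)) = fun _ e => e from funext fun _ => funext fun _ => by simp]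

theorem split {n : ℕ} (A : Subalgebra ℂ K) (z : Fin n → K) (hz : ∀ l, z l ∈ A) (l0 : Fin n)
    (p : MvPolynomial (Fin n) ℂ) : ∃ (q : MvPolynomial {l // l ≠ l0} ℂ) (g : K), g ∈ A ∧
      aeval z p = aeval (fun t : {l // l ≠ l0} => z t.1) q + z l0 * g := by
  have hm : ∀ q : MvPolynomial {l // l ≠ l0} ℂ, aeval (fun t : {l // l ≠ l0} => z t.1) q ∈ A :=
    fun q => by
      induction q using MvPolynomial.induction_on with
      | C c => simpa using A.algebraMap_mem c
      | add p q hp hq => simpa using add_mem hp hq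
      | mul_X p i hp => simpa using mul_mem hp (hz _)
  induction p using MvPolynomial.induction_on with
  | C c => exact ⟨C c, 0, zero_mem _, by simp⟩
  | add p q hp hq =>
    obtain ⟨a, g, h1, h2⟩ := hp
    obtain ⟨a', g', h3, h4⟩ := hq
    exact ⟨a + a', g + g', add_mem h1 h3, by rw [map_add, map_add, h2, h4]; ring⟩
  | mul_X p i hp =>
    obtain ⟨a, g, h1, h2⟩ := hp
    by_cases h : i = l0
    · exact ⟨0, _ + z l0 * g, add_mem (hm a) (mul_mem (hz _) h1), by
        rw [map_mul, aeval_X, h2, h, map_zero]; ring⟩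
    · exact ⟨a * X ⟨i, h⟩, g * z i, mul_mem h1 (hz _), by
        rw [map_mul, map_mul, aeval_X, aeval_X, h2]; ring⟩

theorem v_nonneg (d : DV K) {g : K} (h : g ∈ d.O) : 0 ≤ d.v g := by
  rcases h with h | h
  · rw [h, d.zero]
  · exact h

theorem F_one (d : DV K) {g : K} (h : g ∈ d.O) (h1 : ¬Un d.O g) : g ∈ d.F 1 := by
  by_cases h0 : g = 0
  · exact Or.inl h0
  · have := v_nonneg d h
    have h2 : d.v g ≠ 0 := fun e => h1 (d.un_O.2 ⟨h0, e⟩)
    exact Or.inr (by omega)

end Poly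

variable {N : ℕ} {f : Po N} {W M : Mod N}

theorem sum_le (a : M.ι) (d : DV (KK N)) (h : M.In a d.O) :
    ∑ j, d.v (M.η a j) ≤ ∑ l, d.v (M.S.z a l) := by
  classical
  have e : ∀ j, d.v (M.η a j) =
      ∑ l, if M.S.lab a j = some l then d.v (M.S.z a l) else 0 := fun j => by
    rcases h1 : M.S.lab a j with _ | l
    · simp [Mod.η, M.S.η_none a j h1, d.one]
    · simp [Mod.η, M.S.η_some a j l h1]
  rw [sum_congr rfl fun j _ => e j, sum_comm]
  refine sum_le_sum fun l _ => ?_
  have h0 := v_nonneg d (h _ (M.S.z_mem a l))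
  by_cases h1 : ∃ j, M.S.lab a j = some l
  · obtain ⟨j, hj⟩ := h1
    rw [sum_eq_single j (fun j' _ hne => if_neg fun e => hne (M.S.lab_inj a j' j l e hj))
      (fun e => absurd (mem_univ _) e), if_pos hj]
  · rw [sum_eq_zero fun j _ => if_neg fun e => h1 ⟨j, e⟩]
    exact h0

/-- If the equation of the divisor generates the maximal ideal at the centre of `V`, then `V` is
the ring of the divisor. -/
theorem eq_O (hM : M.OK f) (B : Bas1 M) (a : M.ι) (o : M.J) (V : Vl N) (ha : M.In a V)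
    (h1 : ¬Un V (M.η a o))
    (h2 : ∀ g ∈ M.S.A a, ¬Un V g → ∃ s ∈ M.S.A a, Un V s ∧ ∃ h ∈ M.S.A a, s * g = M.η a o * h) :
    V = (M.v o).O := by
  obtain ⟨h3, h4, -, h5⟩ := B.in_v a V o ha ((B.thru_iff a V o ha).2 h1)
  have h6 := (hM.dv a o h4).2.1
  have h7 : ∀ s ∈ M.S.A a, Un (M.v o).O s → Un V s := fun g hg hu => by
    by_contra hc
    obtain ⟨s, hs, us, h, hh, e⟩ := h2 g hg hc
    obtain ⟨g0, g1⟩ := (M.v o).un_O.1 hu
    have e0 : h ≠ 0 := fun e0 => mul_ne_zero us.1 g0 (by rw [e, e0, mul_zero])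
    have e1 := (M.v o).mul s g us.1 g0
    have e2 := (M.v o).mul _ h (M.η_ne a o) e0
    have e3 := v_nonneg _ (h3 h hh)
    rw [e, e2, h5 s hs us, g1, h6] at e1
    omega
  have h8 : (M.v o).O ≤ V := fun g hg => (B.frac a o h3 g hg).mem ha h7
  refine le_antisymm (fun g hg => ?_) h8
  by_contra hc
  have g0 : g ≠ 0 := fun e => hc (Or.inl e)
  have g1 : ¬0 ≤ (M.v o).v g := fun e => hc (Or.inr e)
  have g2 : g⁻¹ * (M.η a o)⁻¹ ∈ (M.v o).O := Or.inr (by
    rw [(M.v o).mul _ _ (inv_ne_zero g0) (inv_ne_zero (M.η_ne a o)), (M.v o).inv, (M.v o).inv, h6]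
    omega)
  have g3 := mul_mem hg (h8 g2)
  rw [mul_inv_cancel_left₀ g0] at g3
  exact h1 ⟨M.η_ne a o, ha _ (B.η_mem a o), g3⟩

end RPlt

open RPlt in
theorem rowPlt : OfPlt := by
  intro hUnr hJac hBas hDer hDc hJd N f W M D hW hM o β hβ0 hβ
  classical
  have BW := (hBas N f W hW).toBas1
  have BM := (hBas N f M hM).toBas1
  have dc := hDc N f W M D hW hM
  obtain ⟨jd1, jd2⟩ := hJd N f W M D hW hM
  have p2 : ∀ j, D.bd o β (D.e j) = β j := fun j => by
    have e : W.e (D.e o) (D.e j) = M.e o j := by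
      simp only [Mod.e_apply, dc.inj.eq_iff]
    simp only [Dom.bd, Pi.sub_apply, dc.pb_e, Pi.add_apply, Mod.q_apply, e, Mod.kk, jd2]
    ring
  refine ⟨(p2 o).trans hβ0, p2, fun i => ?_⟩
  by_cases hi : i = D.e o
  · rw [hi, p2]
    exact hβ o
  obtain ⟨a, ha⟩ := hM.cov _ (BW.ov_v i)
  obtain ⟨b, hb⟩ := hW.cov _ (BW.ov_v i)
  obtain ⟨-, -, ⟨i0, hi0⟩, -⟩ := BW.in_v b _ i hb ((BW.thru_v i i).2 rfl)
  obtain ⟨Δ, hΔ⟩ : ∃ Δ, (Matrix.of fun i l => W.S.D b i (M.S.z a l)).det = Δ := ⟨_, rfl⟩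
  have hv : Δ ≠ 0 ∧ (W.v i).v Δ = W.kk i - D.pb M.kk i := by
    obtain ⟨e1, e2⟩ := (W.v i).un_O.1 (jd1 a b _ ha hb)
    obtain ⟨-, e3⟩ := (W.v i).un_O.1 (dc.un_mon a b _ M.kk ha hb)
    rw [hΔ] at e1 e2
    have e4 : Δ ≠ 0 := fun e => e1 (by rw [e, zero_mul, zero_div])
    rw [(W.v i).div (mul_ne_zero e4 (M.mon_ne _ _)) (W.mon_ne _ _),
      (W.v i).mul _ _ e4 (M.mon_ne _ _), BW.v_mon b i _ hb] at e2
    rw [(W.v i).div (M.mon_ne _ _) (W.mon_ne _ _), BW.v_mon b i _ hb] at e3
    exact ⟨e4, by omega⟩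
  have jac : ∀ (z : Fin N → KK N) (t : Fin N → ℤ) (u : KK N), (∀ l, z l ∈ (W.v i).F (t l)) →
      Un (W.v i).O u → (Matrix.of fun i l => W.S.D b i (z l)).det = u * Δ →
      ∑ l, t l - 1 ≤ W.kk i - D.pb M.kk i := fun z t u h1 h2 h3 => by
    have h4 := hJac _ N (W.v i) (W.S.D b) i0 z t ((hDer N f W hW).ord b i i0 hb hi0) h1
    obtain ⟨h5, h6⟩ := (W.v i).un_O.1 h2
    rw [h3] at h4
    have h7 := h4.resolve_left (mul_ne_zero h5 hv.1)
    rw [(W.v i).mul _ _ h5 hv.1, h6, hv.2] at h7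
    omega
  have hbd : D.bd o β i =
      D.m i o + ∑ j, (D.m i j : ℚ) * β j - ((W.kk i - D.pb M.kk i : ℤ) : ℚ) := by
    have e1 : D.pb (M.q (M.kk + M.e o)) i = ((D.pb M.kk i + D.m i o : ℤ) : ℚ) := by
      rw [← D.q_pb, D.pb_add, Mod.q_apply, Pi.add_apply, D.pb_e]
    have e2 : W.e (D.e o) i = 0 := by rw [Mod.e_apply, if_neg hi]
    rw [Dom.bd, D.pb_add, Pi.sub_apply, Pi.add_apply, e1, Mod.q_apply, Pi.add_apply, e2]
    simp only [Dom.pb]
    push_cast
    ring
  rw [hbd]
  by_cases hc : ∃ j, j ≠ o ∧ 0 < D.m i j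
  · obtain ⟨j, hj, hj0⟩ := hc
    have e1 := jac (M.S.z a) _ 1 (fun l => (W.v i).mem_F_self _) un_one (by rw [one_mul, hΔ])
    have e2 := sum_le a (W.v i) ha
    rw [← sum_congr rfl fun j _ => dc.m_eq a i j ha] at e2
    have e3 : ((∑ j, (D.m i j : ℤ) - 1 : ℤ) : ℚ) ≤ ((W.kk i - D.pb M.kk i : ℤ) : ℚ) :=
      Int.cast_le.2 (by omega)
    have e4 : ∑ j ∈ univ.erase o, (D.m i j : ℚ) * β j < ∑ j ∈ univ.erase o, (D.m i j : ℚ) :=
      sum_lt_sum (fun j _ => mul_le_of_le_one_right (Nat.cast_nonneg _) (hβ j).le)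
        ⟨j, mem_erase.2 ⟨hj, mem_univ _⟩, mul_lt_of_lt_one_right (Nat.cast_pos.2 hj0) (hβ j)⟩
    have e5 := add_sum_erase univ (fun j => (D.m i j : ℚ) * β j) (mem_univ o)
    have e6 := add_sum_erase univ (fun j => (D.m i j : ℚ)) (mem_univ o)
    simp only [hβ0, mul_zero, zero_add] at e5
    push_cast at e3 ⊢
    linarith
  have hz : ∀ j, j ≠ o → D.m i j = 0 := fun j hj => Nat.eq_zero_of_not_pos fun e => hc ⟨j, hj, e⟩
  have e0 : ∑ j, (D.m i j : ℚ) * β j = 0 := sum_eq_zero fun j _ => by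
    by_cases hj : j = o
    · rw [hj, hβ0, mul_zero]
    · rw [hz j hj, Nat.cast_zero, zero_mul]
  have hpos : D.m i o ≠ 0 := fun e => by
    have e1 := congrFun dc.aa i
    have e2 := hW.pos i
    rw [Dom.pb, sum_eq_zero fun j _ => by
      by_cases hj : j = o
      · rw [hj, e, Nat.cast_zero, zero_mul]
      · rw [hz j hj, Nat.cast_zero, zero_mul]] at e1
    simp only [Mod.aa] at e1
    omega
  have hm := dc.m_eq a i o ha
  have hnu : ¬Un (W.v i).O (M.η a o) := fun e => by
    have := ((W.v i).un_O.1 e).2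
    omega
  obtain ⟨l0, hl0⟩ : ∃ l0, M.S.lab a o = some l0 := by
    rcases h1 : M.S.lab a o with _ | l
    · exact absurd (by simpa [Mod.η, M.S.η_none a o h1] using un_one) hnu
    · exact ⟨l, rfl⟩
  have hη : M.η a o = M.S.z a l0 := M.S.η_some a o l0 hl0
  have hmem : ∀ p : M3.Po N, aeval (M.S.z a) p ∈ (W.v i).O := fun p => by
    refine ha _ ?_
    induction p using MvPolynomial.induction_on with
    | C c => simpa using (M.S.A a).algebraMap_mem c
    | add p q hp hq => simpa using add_mem hp hq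
    | mul_X p i hp => simpa using mul_mem hp (M.S.z_mem a _)
  suffices h : (D.m i o : ℤ) ≤ W.kk i - D.pb M.kk i by
    have : ((D.m i o : ℤ) : ℚ) ≤ ((W.kk i - D.pb M.kk i : ℤ) : ℚ) := Int.cast_le.2 h
    rw [e0]
    push_cast at this ⊢
    linarith
  by_contra hlt
  have hq := poly_zero (fun t : {l // l ≠ l0} => M.S.z a t.1) (W.v i).O
    (fun c => ha _ ((M.S.A a).algebraMap_mem c)) fun q t h1 h2 => by
      have e1 : ∀ q : MvPolynomial {l // l ≠ l0} ℂ, aeval (M.S.z a) (rename Subtype.val q) =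
          aeval (fun t : {l // l ≠ l0} => M.S.z a t.1) q := fun q => aeval_rename _ _ _
      have e2 := jac (Function.update (M.S.z a) t.1 (aeval (M.S.z a) (rename Subtype.val q)))
        (Pi.single l0 (D.m i o : ℤ) + Pi.single t.1 1) _ (fun l => by
          by_cases hl : l = t.1
          · rw [hl, Function.update_self, Pi.add_apply, Pi.single_eq_of_ne t.2, Pi.single_eq_same,
              zero_add]
            exact F_one _ (hmem _) (e1 q ▸ h1)
          · rw [Function.update_of_ne hl, Pi.add_apply, Pi.single_eq_of_ne hl, add_zero]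
            by_cases hl' : l = l0
            · rw [hl', Pi.single_eq_same, hm, hη]
              exact (W.v i).mem_F_self _
            · rw [Pi.single_eq_of_ne hl']
              exact ha _ (M.S.z_mem a l)) h2 (by
          have e3 := Matrix.det_updateCol_sum (Matrix.of fun i l => W.S.D b i (M.S.z a l)) t.1
            fun l => aeval (M.S.z a) (pderiv l (rename Subtype.val q))
          rw [hΔ, pderiv_rename Subtype.val_injective, e1, smul_eq_mul] at e3
          rw [← e3]
          refine congrArg Matrix.det (Matrix.ext fun k l => ?_)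
          by_cases hl : l = t.1
          · rw [hl, Matrix.updateCol_self, Matrix.of_apply, Function.update_self, der_aeval]
            rfl
          · rw [Matrix.updateCol_ne hl, Matrix.of_apply, Function.update_of_ne hl]
            rfl)
      simp only [Pi.add_apply, sum_add_distrib, sum_pi_single', mem_univ, if_true] at e2
      omega
  have hO := eq_O hM BM a o _ ha hnu fun g hg hu => by
    obtain ⟨s, hs, us, r, h, p, h1, h2, h3⟩ := hUnr _ N (M.S.A a)
      (fun l => ⟨M.S.z a l, M.S.z_mem a l⟩) _ (hM.et a) ha g hg hu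
    choose q g' hg' e using fun k => split (M.S.A a) (M.S.z a) (M.S.z_mem a) l0 (p k)
    have e1 : ∀ k, aeval (M.S.z a) (p k) = M.S.z a l0 * g' k := fun k => by
      have e2 : ¬Un (W.v i).O (M.S.z a l0 * g' k) :=
        mul_comm (g' k) _ ▸ not_un_mul (ha _ (hg' k)) (ha _ (M.S.z_mem a l0)) (hη ▸ hnu)
      have e3 : q k = 0 := hq _ fun e4 => h2 k (by
        have := e4.add (mul_mem (ha _ (M.S.z_mem a l0)) (ha _ (hg' k))) e2
        rwa [← e k] at this)
      rw [e k, e3, map_zero, zero_add]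
    refine ⟨s, hs, us, ∑ k, h k * g' k, sum_mem fun k _ => mul_mem (h1 k) (hg' k), ?_⟩
    rw [h3, hη, mul_sum]
    exact sum_congr rfl fun k _ => by
      rw [mul_left_comm, ← e1 k]
  exact hi (hW.inj _ _ (by rw [hO, D.v]))

end Pool.Agent.MP_ee8c61_ag.N3.M3E
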